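import Pool.Agent.Helper13.MLT.Defs
import Pool.Agent.SC.VP0

/-!
# Project MLT: hypothesis `HT` on the splitting field; the orders of `h` at the branch points
-/

set_option autoImplicit false
set_option linter.unusedSectionVars false

namespace Pool.Agent.MLT

open VC IntermediateField NumberField IsDedekindDomain Pool.Agent.SC
open Pool.Agent.L (Inert L0 MM SamePlace OverV tA tB tO tA_apply tB_apply)
open Pool.Agent.LN (Geo Act HasSec GoodCurve IsRam DecPt)
open Pool.Agent.M (UR NN Moves OverPl inL0 lt_iff13 eq_iff13 eq_iffk13 exists_res13 exists_lift13)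
open Pool.Agent.HG (Pr nm Ctx Gd)
open Pool.Agent.ML

noncomputable section

/-- `HT` over `E` -/
def HTE (k : Type) {K0 : Type} (E : Type) [Field k] [Field K0] [Field E] [Algebra k K0]
    [Algebra k E] (ℓ : ℕ) (h : K0) : Prop :=
  Nat.card (GBr k E ℓ h) * ℓ ^ 2 < ℓ ^ Nat.card (GBr k E ℓ h) ∧
  ∀ J : Finset (GBr k E ℓ h), (∀ g, ∀ b ∈ J, b.map g ∈ J) →
    (J.card ≤ 1 ∨ J.card = 2 ∧ ℓ = 2) →
    ∃ σ : E ≃ₐ[k] E, (∃ b : GBr k E ℓ h, b.map σ = b) ∧ ∀ b ∈ J, b.map σ ≠ b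

theorem ht_E {k K0 E : Type} [Field k] [NumberField k] [Field K0] [Field E] [Algebra k K0]
    [Algebra k E] {ℓ : ℕ} {h : K0} (e : E ≃ₐ[k] AlgebraicClosure k) (H : HT k ℓ h) :
    HTE k E ℓ h := by
  classical
  refine ⟨?_, fun J hJ hc => ?_⟩
  · rw [Nat.card_congr (trE (n := ℓ) (h := h) e)]
    exact H.1
  have hinj : Function.Injective (trE (n := ℓ) (h := h) e) := (trE e).injective
  obtain ⟨σ, ⟨b, hb⟩, hσ⟩ := H.2 (J.image (trE e)) (by
    intro g b' hb'
    obtain ⟨b, hb, rfl⟩ := Finset.mem_image.1 hb'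
    refine Finset.mem_image.2 ⟨b.map (tB e g), hJ _ b hb, ?_⟩
    rw [trE_map, MP.tA_tB]) (by
    rw [Finset.card_image_of_injective _ hinj]
    exact hc)
  refine ⟨tB e σ, ⟨(trE e).symm b, ?_⟩, fun b hb hbb => ?_⟩
  · apply hinj
    rw [trE_map, MP.tA_tB, Equiv.apply_symm_apply, hb]
  · apply hσ _ (Finset.mem_image.2 ⟨b, hb, rfl⟩)
    rw [← MP.tA_tB e σ, ← trE_map, hbb]

/-- `HT` excludes rational branch points -/
theorem noTot_of_HT {k K0 : Type} [Field k] [Field K0] [Algebra k K0] {ℓ : ℕ} (hℓ : ℓ.Prime)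
    {h : K0} (H : HT k ℓ h) : ¬ RatTot k ℓ h := by
  classical
  rintro ⟨P, hk, hres, htot⟩
  have hram := htot ℓ dvd_rfl hℓ.one_lt
  -- the residue field of `P` is `k`
  let R := IsLocalRing.ResidueField P
  let ι : k →+* P :=
    { toFun := fun a => ⟨algebraMap k K0 a, hk a⟩
      map_one' := Subtype.ext (_root_.map_one _)
      map_mul' := fun a b => Subtype.ext (map_mul _ _ _)
      map_zero' := Subtype.ext (map_zero _)
      map_add' := fun a b => Subtype.ext (map_add _ _ _) }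
  let j : k →+* R := (IsLocalRing.residue P).comp ι
  have hj : Function.Bijective j := by
    refine ⟨j.injective, fun y => ?_⟩
    obtain ⟨x, rfl⟩ := IsLocalRing.residue_surjective y
    obtain ⟨a, ha⟩ := hres x x.2
    refine ⟨a, ?_⟩
    have h1 : (x - ι a : P) ∈ IsLocalRing.maximalIdeal P := by
      rw [← ValuationSubring.coe_mem_nonunits_iff]
      exact ha
    have h2 : IsLocalRing.residue P (x - ι a) = 0 := by
      rw [IsLocalRing.residue_eq_zero_iff]
      exact h1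
    rw [map_sub, sub_eq_zero] at h2
    exact h2.symm
  let ej : k ≃+* R := RingEquiv.ofBijective j hj
  let b : GBr k (AlgebraicClosure k) ℓ h :=
    { P := P
      φ := ((algebraMap k (AlgebraicClosure k)).comp (ej.symm : R →+* k)).comp
        (IsLocalRing.residue P)
      const := hk
      ram := hram
      emb := fun a x hx => by
        have h1 : x = ι a := Subtype.ext hx
        have h2 : ej a = IsLocalRing.residue P x := by rw [h1]; rfl
        change algebraMap k (AlgebraicClosure k) (ej.symm (IsLocalRing.residue P x)) = _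
        rw [← h2, RingEquiv.symm_apply_apply] }
  have hfix : ∀ g : AlgebraicClosure k ≃ₐ[k] AlgebraicClosure k, b.map g = b := by
    intro g
    have h4 : ((g : AlgebraicClosure k →+* AlgebraicClosure k).comp b.φ) = b.φ := by
      refine RingHom.ext fun x => ?_
      exact g.commutes _
    change (⟨P, (g : AlgebraicClosure k →+* AlgebraicClosure k).comp b.φ, _, _, _⟩ :
      GBr k (AlgebraicClosure k) ℓ h) = ⟨P, b.φ, _, _, _⟩
    congr 1
  obtain ⟨σ, _, hσ⟩ := H.2 {b} (by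
    intro g b' hb'
    rw [Finset.mem_singleton] at hb'
    rw [hb', hfix]
    exact Finset.mem_singleton_self b) (by
    exact Or.inl (Finset.card_singleton b).le)
  exact hσ b (Finset.mem_singleton_self b) (hfix σ)

section roots

variable {k K0 E U : Type} [Field k] [NumberField k] [Field K0] [Field E] [IsAlgClosed E]
  [Field U] [Algebra k K0] [Algebra k E] [Algebra.IsAlgebraic k E] [Algebra E U] [Algebra K0 U]
  [Algebra k U]

/-- the degree of `f` is the number of branch points -/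
theorem natDegree_glE {ℓ : ℕ} {h : K0} {r : U} {f : Polynomial k}
    {θ : Place E (L0 E K0 (U := U)) → E} (Gl : GlE ℓ ℓ h r f θ) :
    f.natDegree = Nat.card {b : Place E (L0 E K0 (U := U)) // BPl ℓ h b} := by
  classical
  have hs : (f.map (algebraMap k E)).Splits := IsAlgClosed.splits _
  have h1 := Polynomial.card_rootSet_eq_natDegree Gl.sep hs
  rw [← h1, ← Nat.card_eq_fintype_card]
  symm
  refine Nat.card_congr (Equiv.ofBijective (fun b => ⟨θ b.1, by
    rw [Polynomial.mem_rootSet]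
    exact ⟨Gl.sep.ne_zero, Gl.root b.1 b.2⟩⟩) ⟨?_, ?_⟩)
  · intro b b' hbb
    exact Subtype.ext (Gl.inj _ _ b.2 b'.2 (Subtype.mk.inj hbb))
  · rintro ⟨x, hx⟩
    rw [Polynomial.mem_rootSet] at hx
    obtain ⟨b, hb, hbx⟩ := Gl.ex x hx.2
    exact ⟨⟨b, hb⟩, Subtype.ext hbx⟩

/-- `HT` for the roots in the splitting field -/
theorem ht_roots {ℓ : ℕ} {h : K0} {r : U} {f : Polynomial k}
    {θ : Place E (L0 E K0 (U := U)) → E}
    (Gl : GlE ℓ ℓ h r f θ) {c : k} {Φ : (E ≃ₐ[k] E) →* (U ≃+* U)} (hc : c ≠ 0)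
    (hA : Act (K0 := K0) ℓ r c Φ)
    (γ : {b : Place E (L0 E K0 (U := U)) // BPl ℓ h b} ≃ GBr k E ℓ h)
    (hγ : ∀ (g : E ≃ₐ[k] E) (b b' : {b : Place E (L0 E K0 (U := U)) // BPl ℓ h b}),
      Moves (Φ g) _ b.1 b'.1 ↔ (γ b).map g = γ b')
    (H : HTE k E ℓ h) :
    f.natDegree * ℓ ^ 2 < ℓ ^ f.natDegree ∧ 2 ≤ f.natDegree ∧
    ∀ (L : Type) [Field L] [NumberField L] [Algebra k L] [IsGalois k L],
      (f.map (algebraMap k L)).Splits →
      ∀ J : Finset L, (∀ σ : L ≃ₐ[k] L, ∀ θ ∈ J, σ θ ∈ J) → (J : Set L) ⊆ f.rootSet L →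
      (J.card ≤ 1 ∨ J.card = 2 ∧ ℓ = 2) →
      ∃ σ : L ≃ₐ[k] L, (∃ θ ∈ f.rootSet L, σ θ = θ) ∧ ∀ θ ∈ J, σ θ ≠ θ := by
  classical
  obtain ⟨hbig, H⟩ := H
  have hne : Nonempty (GBr k E ℓ h) := by
    obtain ⟨_, ⟨b, _⟩, _⟩ := H ∅ (fun _ b hb => absurd hb (Finset.notMem_empty b)) (by simp)
    exact ⟨b⟩
  have hdeg : f.natDegree = Nat.card (GBr k E ℓ h) := by
    rw [natDegree_glE Gl, Nat.card_congr γ]
  rw [← hdeg] at hbig
  refine ⟨hbig, ?_, ?_⟩
  · obtain ⟨b⟩ := hne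
    have h1 : 0 < f.natDegree := by
      by_contra h0
      have h2 : f.natDegree = 0 := by omega
      rw [Polynomial.natDegree_eq_zero] at h2
      obtain ⟨a, ha⟩ := h2
      have h3 := Gl.root _ (γ.symm b).2
      rw [← ha, Polynomial.aeval_C] at h3
      have h4 : a = 0 := by
        have := (map_eq_zero (algebraMap k E)).1 h3
        exact this
      rw [h4, Polynomial.C_0] at ha
      exact Gl.sep.ne_zero ha.symm
    by_contra hcon
    have h2 : f.natDegree = 1 := by omega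
    rw [h2, pow_one, one_mul] at hbig
    have h3 := Nat.le_self_pow two_ne_zero ℓ
    omega
  intro L _ _ _ _ hs
  let ι : L →ₐ[k] E := IsAlgClosed.lift
  -- the branch point of a root
  have hch : ∀ x : L, ∃ b : {b : Place E (L0 E K0 (U := U)) // BPl ℓ h b},
      x ∈ f.rootSet L → θ b.1 = ι x := by
    intro x
    by_cases hx : x ∈ f.rootSet L
    · obtain ⟨b, hb, hbx⟩ := exists_place Gl ι hx
      exact ⟨⟨b, hb⟩, fun _ => hbx⟩
    · obtain ⟨b⟩ := hne
      exact ⟨γ.symm b, fun h1 => absurd h1 hx⟩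
  choose B hB using hch
  have hBinj : ∀ x ∈ f.rootSet L, ∀ y ∈ f.rootSet L, γ (B x) = γ (B y) → x = y := by
    intro x hx y hy hxy
    have h1 := γ.injective hxy
    refine ι.injective (?_ : ι x = ι y)
    rw [← hB x hx, ← hB y hy, h1]
  have hmov : ∀ (g : E ≃ₐ[k] E) (τ : L ≃ₐ[k] L), (∀ x, g (ι x) = ι (τ x)) →
      ∀ x ∈ f.rootSet L, ∀ y ∈ f.rootSet L, ((γ (B x)).map g = γ (B y) ↔ τ x = y) := by
    intro g τ hτ x hx y hy
    rw [← hγ, Gl.act c Φ hc hA g _ _ (B x).2 (B y).2, hB x hx, hB y hy, hτ]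
    exact ι.injective.eq_iff
  intro J hJ hsub hcard
  obtain ⟨σ, ⟨b, hb⟩, hσ⟩ := H (J.image fun x => γ (B x)) (by
    intro g b' hb'
    obtain ⟨x, hx, rfl⟩ := Finset.mem_image.1 hb'
    obtain ⟨τ, hτ⟩ := exists_res13 ι g
    refine Finset.mem_image.2 ⟨τ x, hJ τ x hx, ?_⟩
    exact ((hmov g τ hτ x (hsub hx) (τ x) (hsub (hJ τ x hx))).2 rfl).symm) (by
    rw [Finset.card_image_of_injOn fun x hx y hy hxy =>
      hBinj x (hsub hx) y (hsub hy) hxy]
    exact hcard)
  obtain ⟨τ, hτ⟩ := exists_res13 ι σ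
  refine ⟨τ, ?_, ?_⟩
  · obtain ⟨x, hx, hxb⟩ := exists_root Gl ι hs (γ.symm b).2
    have h1 : B x = γ.symm b := Subtype.ext (Gl.inj _ _ (B x).2 (γ.symm b).2 (by
      rw [hB x hx, hxb]))
    refine ⟨x, hx, (hmov σ τ hτ x hx x hx).1 ?_⟩
    rw [h1, Equiv.apply_symm_apply, hb]
  · intro x hx hxx
    exact hσ _ (Finset.mem_image.2 ⟨x, hx, rfl⟩)
      ((hmov σ τ hτ x (hsub hx) x (hsub hx)).2 hxx)

end roots

/-! ## The orders of `h` -/

theorem sum_filter_ord {ι : Type*} (S : Finset ι) (f : ι → ℤ) (ℓ : ℕ) (h : ∑ i ∈ S, f i = 0)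
    [DecidablePred fun i => ¬ (ℓ : ℤ) ∣ f i] :
    ∑ i ∈ S.filter (fun i => ¬ (ℓ : ℤ) ∣ f i), (f i : ZMod ℓ) = 0 := by
  have h1 : ((∑ i ∈ S, f i : ℤ) : ZMod ℓ) = 0 := by rw [h, Int.cast_zero]
  rw [Int.cast_sum] at h1
  rw [← h1]
  refine Finset.sum_filter_of_ne fun i _ hi => ?_
  intro h2
  exact hi ((ZMod.intCast_zmod_eq_zero_iff_dvd _ _).2 h2)

/-- The sum of the orders of `h` at the branch points is divisible by `ℓ`. -/
theorem sum_ord {k K0 E U : Type} [Field k] [NumberField k] [Field K0] [Field E] [Field U]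
    [Algebra k K0] [Algebra k E] [Algebra E U] [Algebra K0 U] [Algebra k U] [IsScalarTower k E U]
    [IsScalarTower k K0 U] {ℓ : ℕ} (hℓ : ℓ.Prime) {h : K0} {r : U} (geo : Geo k K0 E U ℓ h r)
    (S : Finset (Place E (L0 E K0 (U := U)))) (hS : ∀ b, b ∈ S ↔ BPl ℓ h b) :
    ∑ b ∈ S, ((ord b.ring (inL0 h) : ℤ) : ZMod ℓ) = 0 := by
  classical
  have hcl : IsAlgClosed E := geo.clE
  have hch : CharZero E := charZero_of_injective_algebraMap (algebraMap k E).injective
  have hff : IsFunctionField E (L0 E K0 (U := U)) := geo.ff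
  have hr0 : r ≠ 0 := by
    rintro rfl
    refine geo.rnot 1 one_pos hℓ.one_lt ?_
    rw [pow_one]
    exact zero_mem _
  have hh0 : (inL0 h : L0 E K0 (U := U)) ≠ 0 := by
    intro h1
    have h2 : algebraMap K0 U h = 0 := congrArg Subtype.val h1
    have h3 := geo.rpow
    rw [h2] at h3
    exact hr0 (pow_eq_zero_iff hℓ.ne_zero |>.1 h3)
  have h2 := sum_filter_ord _ _ ℓ (SCVP.degree_zero hff hh0)
  rw [← h2]
  refine Finset.sum_congr ?_ fun _ _ => rfl
  ext b
  rw [hS, Finset.mem_filter, Set.Finite.mem_toFinset]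
  refine ⟨fun hb => ⟨?_, hb⟩, fun hb => hb.2⟩
  intro h0
  apply hb
  rw [h0]
  exact dvd_zero _

/-- The orders of `h` at the roots. -/
theorem isOrd_roots {k K0 E U : Type} [Field k] [NumberField k] [Field K0] [Field E] [Field U]
    [Algebra k K0] [Algebra k E] [Algebra E U] [Algebra K0 U] [Algebra k U] [IsScalarTower k E U]
    [IsScalarTower k K0 U] {ℓ : ℕ} (hℓ : ℓ.Prime) {h : K0} {r : U} (geo : Geo k K0 E U ℓ h r)
    {f : Polynomial k} {θ : Place E (L0 E K0 (U := U)) → E} (Gl : GlE ℓ ℓ h r f θ)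
    (hdeg : 0 < f.natDegree)
    (L : Type) [Field L] [NumberField L] [Algebra k L] [IsGalois k L]
    (hs : (f.map (algebraMap k L)).Splits) : ∃ m : L → ZMod ℓ, IsOrd f ℓ m := by
  classical
  have hcl : IsAlgClosed E := geo.clE
  have halg : Algebra.IsAlgebraic k E := geo.algE
  let ι : L →ₐ[k] E := IsAlgClosed.lift
  -- a branch point
  obtain ⟨b₀, hb₀⟩ : ∃ b : Place E (L0 E K0 (U := U)), BPl ℓ h b := by
    obtain ⟨x, hx⟩ := IsAlgClosed.exists_aeval_eq_zero E f (by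
      intro h0
      have := Polynomial.natDegree_eq_zero_iff_degree_le_zero.2 h0.le
      omega)
    obtain ⟨b, hb, _⟩ := Gl.ex x hx
    exact ⟨b, hb⟩
  have hch : ∀ x : L, ∃ b : {b : Place E (L0 E K0 (U := U)) // BPl ℓ h b},
      x ∈ f.rootSet L → θ b.1 = ι x := by
    intro x
    by_cases hx : x ∈ f.rootSet L
    · obtain ⟨b, hb, hbx⟩ := exists_place Gl ι hx
      exact ⟨⟨b, hb⟩, fun _ => hbx⟩
    · exact ⟨⟨b₀, hb₀⟩, fun h1 => absurd h1 hx⟩
  choose B hB using hch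
  have hinj : ∀ x ∈ (f.rootSet_finite L).toFinset, ∀ y ∈ (f.rootSet_finite L).toFinset,
      (B x).1 = (B y).1 → x = y := by
    intro x hx y hy hxy
    rw [Set.Finite.mem_toFinset] at hx hy
    refine ι.injective (?_ : ι x = ι y)
    rw [← hB x hx, ← hB y hy, hxy]
  refine ⟨fun x => ((ord (B x).1.ring (inL0 h) : ℤ) : ZMod ℓ), ⟨fun x hx h0 => ?_,
    fun σ x hx => ?_, ?_⟩⟩
  · exact (B x).2 ((ZMod.intCast_zmod_eq_zero_iff_dvd _ _).1 h0)
  · obtain ⟨g, hg⟩ := exists_lift13 ι σ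
    have hσx : σ x ∈ f.rootSet L := by
      rw [Polynomial.mem_rootSet] at hx ⊢
      refine ⟨hx.1, ?_⟩
      have h1 : Polynomial.aeval (σ x) f = σ (Polynomial.aeval x f) :=
        Polynomial.aeval_algHom_apply (σ : L →ₐ[k] L) x f
      rw [h1, hx.2, _root_.map_zero]
    have h1 := Gl.ord g (B x).1 (B (σ x)).1 (B x).2 (B (σ x)).2 (by
      rw [hB x hx, hB _ hσx, hg])
    change ((ord (B (σ x)).1.ring (inL0 h) : ℤ) : ZMod ℓ) = ((ord (B x).1.ring (inL0 h) : ℤ) : ZMod ℓ)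
    rw [h1]
  · have h1 := sum_ord hℓ geo ((f.rootSet_finite L).toFinset.image fun x => (B x).1) (by
      intro b
      rw [Finset.mem_image]
      constructor
      · rintro ⟨x, _, rfl⟩
        exact (B x).2
      · intro hb
        obtain ⟨x, hx, hxb⟩ := exists_root Gl ι hs hb
        refine ⟨x, (Set.Finite.mem_toFinset _).2 hx, ?_⟩
        exact Gl.inj _ _ (B x).2 hb (by rw [hB x hx, hxb]))
    rw [Finset.sum_image hinj] at h1
    exact h1

end

end Pool.Agent.MLT
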