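import Pool.Agent.Helper13.MLT.Fin1
import Pool.Agent.Helper13.MLT.GB

/-!
# Project MLT: the bounds in absolute form, from the blocks
-/

set_option autoImplicit false
set_option linter.unusedSectionVars false

namespace Pool.Agent.MLT

open VC IntermediateField NumberField IsDedekindDomain Pool.Agent.SC
open Pool.Agent.L (Inert L0 MM SamePlace OverV)
open Pool.Agent.LN (Geo Act HasSec GoodCurve IsRam DecPt)
open Pool.Agent.HG (Pr nm Ctx Gd)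
open Pool.Agent.MP (kap kap_pos)
open Pool.Agent.ML

/-- The absolute bounds from the blocks. -/
theorem absT_of (hTR : LN.StmtTR) (hNR : StmtNR) (hFB : M.StmtFB)
    (hFIN : StmtFIN) (hZ : StmtZ) (hINT : StmtINT) (hLFT : StmtLFT) (hMU : StmtMU)
    (hQMD : StmtQMD) (hW3 : M.StmtW3) (hSel : StmtSel) (hMert : HG.StmtMert)
    (hSplit : HG.StmtSplit) (hBTL : StmtBTL)
    (hThue : HG.StmtThue) (hG4 : StmtG4P) (hG1 : StmtG1X) (hG2 : StmtG2)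
    (hCount : StmtCountLT) (hCLL : StmtCLL) (hBIJ : StmtBIJ)
    (hDK : MP.StmtDK) (hG3T : StmtG3T) (hPIT : MP.StmtPIT) (hLOWK : StmtLOWK)
    (hLOWC : StmtLOWC) : StmtAbsT := by
  intro k K0 _ _ _ _ ℓ h hℓ hmu hG hHT
  obtain ⟨E, U, _, _, _, _, _, _, _, _, r, G, hact⟩ := hTR k K0 ℓ h hℓ.two_le hG
  by_cases hex : ∃ (c₁ : k) (Φ₁ : (E ≃ₐ[k] E) →* (U ≃+* U)), c₁ ≠ 0 ∧ Act (K0 := K0) ℓ r c₁ Φ₁
  swap
  · refine Or.inl fun c hc hs => ?_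
    obtain ⟨Φ, hΦ⟩ := hact _ hc hs
    exact hex ⟨_, Φ, hc, hΦ⟩
  obtain ⟨c₁, Φ₁, hc₁, hA₁⟩ := hex
  have hclE : IsAlgClosed E := G.clE
  have halg : Algebra.IsAlgebraic k E := G.algE
  have hcl : IsAlgClosure k E := ⟨hclE, halg⟩
  let e : E ≃ₐ[k] AlgebraicClosure k := IsAlgClosure.equiv k E (AlgebraicClosure k)
  obtain ⟨f, θ, Gl'⟩ := exists_glE hNR hFB hℓ.pos hℓ dvd_rfl hmu G (noTot_of_HT hℓ hHT) hc₁ hA₁
  obtain ⟨β, hβ, hβ'⟩ := hBIJ k K0 E U ℓ h r hℓ.two_le G c₁ Φ₁ hc₁ hA₁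
  obtain ⟨γ, hγ⟩ := exists_gbr hℓ β hβ hβ'
  obtain ⟨hbig, hdeg, hroots⟩ := ht_roots Gl' hc₁ hA₁ γ hγ (ht_E e hHT)
  have hord := isOrd_roots hℓ G Gl' (by omega)
  obtain ⟨η, C, hη, hC, hup⟩ := upperRT hFIN hZ hINT hLFT hMU hQMD hW3 hSel hMert hSplit hBTL
    hThue hG4 hG1 hG2 hCount hCLL hDK hG3T hℓ hmu G Gl' hdeg hord hbig hroots
  have hNF : NumberField f.SplittingField := NumberField.of_module_finite k f.SplittingField
  have hGal : IsGalois k f.SplittingField := IsGalois.of_separable_splitting_field Gl'.sep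
  have hκ : 0 < ((ℓ - 1 : ℕ) : ℝ) * kap f := by
    have h1 : (0 : ℝ) < ((ℓ - 1 : ℕ) : ℝ) := by
      have := hℓ.two_le
      exact_mod_cast (by omega : 0 < ℓ - 1)
    exact mul_pos h1 (kap_pos (by omega))
  refine Or.inr ⟨((ℓ - 1 : ℕ) : ℝ) * kap f, η, C, hκ, hη, hC, fun X hX T hT1 hT2 => ?_,
    fun Sg hSg W hW c₀ hc₀ => ?_⟩
  · refine hup X hX T hT1 fun c hc => ?_
    obtain ⟨h1, h2, h3⟩ := hT2 c hc
    exact ⟨h1, h2, hact _ h1 h3⟩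
  · exact lowerR hLFT hW3 hMert hThue hG4 hDK hPIT hLOWK hLOWC hℓ G Gl' hdeg hc₁ hA₁ e γ hγ hSg hW
      hc₀

end Pool.Agent.MLT
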