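import Pool.Agent.Helper13.MLT.Defs

/-!
# Project MLT, block G1X: the relations with explicit prescriptions
-/

set_option autoImplicit false
set_option linter.unusedSectionVars false

namespace Pool.Agent.MLT

open Polynomial NumberField IsDedekindDomain
open Pool.Agent.HG Pool.Agent.ML
open scoped Pointwise IntermediateField

theorem g1X : StmtG1X := by
  intro hsel k L _ _ _ _ _ _ f X n ℓ _ hp _ hmu hM h2 hm hfin ι Vι Al w SG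
  classical
  -- the finite lists of classes
  choose Fs hFs1 hFs2 using fun θ θ' : L => hsel ℓ hp k L k⟮θ, θ'⟯ X.M X.hM
  set FF : Finset L := insert 1 ((X.Ω ×ˢ X.Ω).biUnion fun x => Fs x.1 x.2) with hFF
  set hh : (X.Ω → X.Ω → FF) → L → L → L := fun h a b =>
    if hab : a ∈ X.Ω ∧ b ∈ X.Ω then (h ⟨a, hab.1⟩ ⟨b, hab.2⟩ : L) else 1 with hhh
  refine ⟨X.Ω → X.Ω → FF, inferInstance, hh, ?_⟩
  intro c S D t i hdat hi
  -- the classes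
  have he : ∀ θ θ' : L, ∃ e : L, e ∈ FF ∧ (θ ∈ X.Ω → θ' ∈ X.Ω → θ ≠ θ' → e ∈ k⟮θ, θ'⟯ ∧
      ∃ d ∈ k⟮θ, θ'⟯, D θ θ' * (Zl X S w t θ)⁻¹ * Zl X S w t θ' = e * d ^ ℓ) := by
    intro θ θ'
    by_cases h1 : θ ∈ X.Ω ∧ θ' ∈ X.Ω ∧ θ ≠ θ'
    · obtain ⟨h1, h2, h3⟩ := h1
      obtain ⟨e, he, d, hd, hz⟩ := hFs2 θ θ' _ (hdat.z_mem h1 h2 h3) (hdat.z_ne h1 h2 h3)
        (hdat.vz_z h1 h2 h3)
      exact ⟨e, Finset.mem_insert_of_mem (Finset.mem_biUnion.2 ⟨(θ, θ'),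
        Finset.mem_product.2 ⟨h1, h2⟩, he⟩), fun _ _ _ => ⟨(hFs1 θ θ' e he).1, d, hd, hz⟩⟩
    · exact ⟨1, Finset.mem_insert_self _ _, fun h2 h3 h4 => absurd ⟨h2, h3, h4⟩ h1⟩
  choose e heF he using he
  have hhe : ∀ {a b : L}, a ∈ X.Ω → b ∈ X.Ω →
      hh (fun a b => ⟨e a b, heF a b⟩) a b = e a b := by
    intro a b ha hb
    rw [hhh]
    exact dif_pos ⟨ha, hb⟩
  -- the options
  set u : Pr k → rootsOfUnity ℓ k := fun v => Aq X ℓ S w t v (st X ℓ v (t v)) with hu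
  refine ⟨fun a b => ⟨e a b, heF a b⟩, ?_⟩
  refine bad_ofL X ℓ hm hfin ι Vι Al w _ S (fun v hv => ((hdat.hS v.1 v.2).1 hv).1) t u i
    (fun v hv => hi v.1 v.2 hv)
    (fun v hv => ⟨hdat.t_mem v.1 v.2 hv, hdat.t_fix v.1 v.2 hv⟩) ?_
  intro v hv ρ hρR hρt
  have hρΩ := X.R_subset v.1 hρR
  have htΩ := hdat.t_mem v.1 v.2 hv
  -- the product over `q ≠ v`
  have hprod : ∏ q ∈ S.filter (fun q => q ≠ v ∧ X.cmp hm (t q.1) = X.cmp hm ρ),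
      chl X ℓ v.1 (X.len v.1 ρ) (aeval ρ (X.B q.1 (t q.1))) ^ w (t q.1) q.2 =
      Aq X ℓ S w t v.1 ρ *
      (if X.cmp hm (t v.1) = X.cmp hm ρ then
        (chl X ℓ v.1 (X.len v.1 ρ) (aeval ρ (X.B v.1 (t v.1))) ^ w (t v.1) v.2)⁻¹ else 1) := by
    have h1 : S.filter (fun q => q ≠ v ∧ X.cmp hm (t q.1) = X.cmp hm ρ) =
        (S.filter (fun q => minpoly k (t q.1) = minpoly k ρ)).erase v := by
      ext q
      simp only [Finset.mem_filter, Finset.mem_erase]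
      constructor
      · rintro ⟨h1, h2, h3⟩
        exact ⟨h2, h1, (X.cmp_eq hm (hdat.t_mem q.1 q.2 h1) hρΩ).1 h3⟩
      · rintro ⟨h2, h1, h3⟩
        exact ⟨h1, h2, (X.cmp_eq hm (hdat.t_mem q.1 q.2 h1) hρΩ).2 h3⟩
    rw [h1, Aq]
    split_ifs with h2
    · have h3 : v ∈ S.filter (fun q => minpoly k (t q.1) = minpoly k ρ) :=
        Finset.mem_filter.2 ⟨hv, (X.cmp_eq hm htΩ hρΩ).1 h2⟩
      rw [← Finset.prod_erase_mul _ _ h3, mul_assoc, mul_inv_cancel, mul_one]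
    · have h3 : v ∉ S.filter (fun q => minpoly k (t q.1) = minpoly k ρ) := fun h3 =>
        h2 ((X.cmp_eq hm htΩ hρΩ).2 (Finset.mem_filter.1 h3).2)
      rw [Finset.erase_eq_of_notMem h3, mul_one]
  rw [hprod]
  unfold ggL
  congr 1
  split_ifs with h1
  · have h1' : ρ = st X ℓ v.1 (t v.1) := h1
    rw [h1']
  · have hst := st_mem (ℓ := ℓ) X h2 (hdat.t_fix v.1 v.2 hv)
    have hsΩ := X.R_subset v.1 (Finset.mem_erase.1 hst).2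
    obtain ⟨he1, d, hd, hz⟩ := he ρ (st X ℓ v.1 (t v.1)) hρΩ hsΩ h1
    have h5 : hh (fun a b => ⟨e a b, heF a b⟩) ρ (st X ℓ v.1 (t v.1)) =
        e ρ (st X ℓ v.1 (t v.1)) := hhe hρΩ hsΩ
    change _ = (_ * _ * (chE X ℓ v.1 _
      (hh (fun a b => ⟨e a b, heF a b⟩) ρ (st X ℓ v.1 (t v.1))))⁻¹) ^ _
    rw [h5]
    have h6 := hdat.rel hp hM hmu h2 (v := v.1) (e₀ := v.2) hv (Finset.mem_erase.2 ⟨hρt, hρR⟩)
      h1 he1 hd hz
    have h7 := not_dvd_quot X hp h2 (hdat.t_fix v.1 v.2 hv) (Finset.mem_erase.2 ⟨hρt, hρR⟩)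
    refine (root_pow_inv hp (Aq X ℓ S w t v.1 ρ) h7).symm.trans ?_
    rw [h6]

end Pool.Agent.MLT
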