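import Pool.Agent.Helper13.MLT.Wt

/-!
# Project MLT, block G3T: the weights relative to the primes with a root
-/

set_option autoImplicit false

namespace Pool.Agent.MLT

open Polynomial NumberField IsDedekindDomain
open Pool.Agent.HG (Pr nm Ctx Gd Over)
open Pool.Agent.MP (SysR TAR)
open Pool.Agent.Helper99.ML (BTb WJb TBRb)
open Pool.Agent.ML
open scoped IntermediateField

/-- **BLOCK G3T** -/
theorem g3T : StmtG3T := by
  classical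
  intro hMe hSp hDK hW3 k L _ _ _ _ _ _ f ℓ _ hℓ hmu ⟨m, hM⟩ hbig hf h4 K
  obtain ⟨B₀, hB₀⟩ := HG.exists_B5 k
  obtain ⟨δs, Cs, Qs, hδs, hQs, hCs⟩ := hSp k L B₀ hB₀
  have hℓ0 : (0 : ℝ) < ℓ := by exact_mod_cast hℓ.pos
  have ha0 : (0 : ℝ) < (1 / (ℓ : ℝ)) ^ (f.rootSet_finite L).toFinset.card := by positivity
  have hKpos : (0 : ℝ) < K + (1 / (ℓ : ℝ)) ^ (f.rootSet_finite L).toFinset.card := by positivity
  refine ⟨(1 / (ℓ : ℝ)) ^ (f.rootSet_finite L).toFinset.card / 2 * δs /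
    (K + (1 / (ℓ : ℝ)) ^ (f.rootSet_finite L).toFinset.card), by positivity,
    fun X hm hfin ι Vι w SG hh hK Q hQ B hB δ C hδ hC => ?_⟩
  obtain ⟨⟨C₂, h2⟩, hJ⟩ := hDK hW3 k L f X hf B₀ hB₀
  obtain ⟨R₀, hR₀⟩ : ∃ R₀ : Set (Pr k), ∀ v, v ∈ R₀ ↔ (X.Fx v).Nonempty := ⟨{v | (X.Fx v).Nonempty}, fun _ => Iff.rfl⟩
  have hset : {p : Pr k × Fin ℓ | ¬ ℓ ∣ (p.2 : ℕ) ∧ (X.Fx p.1).Nonempty} =
      {p : Pr k × Fin ℓ | p.2 ∈ (Finset.univ : Finset (Fin ℓ)).filter (fun e : Fin ℓ => ¬ ℓ ∣ (e : ℕ)) ∧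
        p.1 ∈ R₀} := by
    ext p
    simp [hR₀]
  have hκ : ((ℓ - 1 : ℕ) : ℝ) =
      ((Finset.univ : Finset (Fin ℓ)).filter (fun e : Fin ℓ => ¬ ℓ ∣ (e : ℕ))).card := by
    rw [card_lab hℓ.pos (dvd_refl ℓ), Nat.div_self hℓ.pos]
  have h2' : ∀ x : ℕ, 2 ≤ x → |∑ v ∈ (B₀ x).filter (· ∈ R₀), (1 : ℝ) / nm v -
      ((Nat.card {σ : L ≃ₐ[k] L // ∃ θ ∈ X.Ω, σ θ = θ} : ℝ) / Nat.card (L ≃ₐ[k] L)) * Real.log (Real.log x)| ≤ C₂ := by
    intro x hx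
    convert h2 x hx
    exact hR₀ _
  rw [hset, hκ]
  -- a root
  obtain ⟨θ₁, hθ₁⟩ : X.Ω.Nonempty := by
    have h1 : 0 < X.cls.card := hm
    obtain ⟨q, hq⟩ := Finset.card_pos.1 h1
    unfold Ctx.cls at hq
    obtain ⟨θ, hθ, -⟩ := Finset.mem_image.1 hq
    exact ⟨θ, hθ⟩
  -- the label `1`
  have hE : (⟨1, hℓ.one_lt⟩ : Fin ℓ) ∈ (Finset.univ : Finset (Fin ℓ)).filter (fun e : Fin ℓ => ¬ ℓ ∣ (e : ℕ)) :=
    Finset.mem_filter.2 ⟨Finset.mem_univ _, fun h => hℓ.one_lt.ne' (Nat.dvd_one.1 h)⟩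
  refine ⟨sysL hMe _ _ hB₀ h2', ⟨_, card_V_le X ℓ ℓ hm hfin ι Vι _ w (ggL X ℓ hm w SG hh) K hK⟩, fun J => ?_⟩
  obtain ⟨hdeg, hΩ⟩ : 2 ≤ f.natDegree ∧ X.Ω.card = f.natDegree := by
    have h1 : X.Ω.card = f.natDegree := by
      have h2 : X.Ω = (f.rootSet L).toFinset := by
        ext θ
        rw [Ctx.mem_Ω, Set.mem_toFinset]
      rw [h2, Set.toFinset_card]
      exact Polynomial.card_rootSet_eq_natDegree X.sepf X.splits
    refine ⟨?_, h1⟩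
    by_contra hcon
    have h2 : f.natDegree = 1 := by omega
    rw [h2, pow_one, one_mul] at hbig
    have h3 := Nat.le_self_pow two_ne_zero ℓ
    omega
  by_cases hcase : (X.ΩJ5 hm J).card ≤ 1 ∨ (X.ΩJ5 hm J).card = 2 ∧ ℓ = 2
  · refine Or.inl ?_
    have hsub : ((X.ΩJ5 hm J : Finset L) : Set L) ⊆ f.rootSet L := by
      intro θ hθ
      rw [Finset.mem_coe, Ctx.mem_ΩJ5, Ctx.mem_Ω] at hθ
      exact hθ.1
    have hσ : ∃ σ : L ≃ₐ[k] L, (∃ θ ∈ X.Ω, σ θ = θ) ∧ ∀ θ ∈ X.ΩJ5 hm J, σ θ ≠ θ := by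
      obtain ⟨σ, ⟨θ, hθ, hσ⟩, hσ'⟩ := h4 (X.ΩJ5 hm J) (stab_ΩJ X hm J) hsub hcase
      exact ⟨σ, ⟨θ, (X.mem_Ω θ).2 hθ, hσ⟩, hσ'⟩
    obtain ⟨δ', C', hδ', hC'⟩ := hJ (X.ΩJ5 hm J) (stab_ΩJ X hm J) hσ
    have hgoal := tarL X ℓ ℓ hm hfin ι Vι (fun _ _ => True) w (ggL X ℓ hm w SG hh) J _ R₀ ⟨1, hℓ.one_lt⟩ hE hB₀
      {v : Pr k | (X.Fx v).Nonempty ∧ ∀ θ ∈ X.ΩJ5 hm J, X.F v θ ≠ θ} (C := C') hδ' ?_ ?_
    · exact Eq.mpr (congrArg (fun R : Set (Pr k × Fin ℓ) =>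
        TAR (cdL X ℓ ℓ hm hfin ι Vι (fun _ _ => True) w (ggL X ℓ hm w SG hh)) R J) hset) hgoal
    · intro x hx
      convert hC' x hx
      exact Iff.rfl
    · rintro v ⟨hv1, hv2⟩ hgd
      refine ⟨(hR₀ v).2 hv1, fun θ hθ _ => ?_⟩
      have h8 := X.FJ_sub_ΩJ5 hm J v hθ
      rw [Ctx.mem_FJ5] at hθ
      exact hv2 θ h8 hθ.1.2
  · refine Or.inr ?_
    have hbj : BigJ X ℓ m hm J := by
      push Not at hcase
      by_cases h3 : 3 ≤ (X.ΩJ5 hm J).card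
      · exact Or.inl h3
      · have h2c : (X.ΩJ5 hm J).card = 2 := by omega
        refine Or.inr ⟨h2c, ?_⟩
        obtain ⟨a, b, hab, hJab⟩ := Finset.card_eq_two.1 h2c
        have haJ : a ∈ X.ΩJ5 hm J := by
          rw [hJab]
          exact Finset.mem_insert_self a _
        have haf : a ∈ f.rootSet L := (X.mem_Ω a).1 ((X.mem_ΩJ5 hm J a).1 haJ).1
        -- `a` is not rational
        obtain ⟨τ, hτ⟩ : ∃ τ : L ≃ₐ[k] L, τ a ≠ a := by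
          by_contra hcon
          push Not at hcon
          obtain ⟨σ, -, hσ⟩ := h4 {a} (by
            intro σ θ hθ
            rw [Finset.mem_singleton] at hθ
            rw [hθ, hcon σ]
            exact Finset.mem_singleton_self a) (by
            intro θ hθ
            rw [Finset.mem_coe, Finset.mem_singleton] at hθ
            rw [hθ]
            exact haf) (Or.inl (Finset.card_singleton a).le)
          exact hσ a (Finset.mem_singleton_self a) (hcon σ)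
        have hτb : τ a = b := by
          have h5 := stab_ΩJ X hm J τ a haJ
          rw [hJab, Finset.mem_insert, Finset.mem_singleton] at h5
          exact h5.resolve_left hτ
        have hmb : m b = m a := by
          rw [← hτb]
          exact hM.inv τ a haf
        rw [hJab, Finset.sum_pair hab, hmb, ← two_mul]
        have hF : Fact ℓ.Prime := ⟨hℓ⟩
        refine mul_ne_zero ?_ (hM.ne a haf)
        intro h5
        have h6 : ((2 : ℕ) : ZMod ℓ) = 0 := by exact_mod_cast h5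
        rw [ZMod.natCast_eq_zero_iff] at h6
        exact hcase.2 h2c ((Nat.prime_dvd_prime_iff_eq hℓ Nat.prime_two).1 h6)
    have hgoal := tbrT X ℓ ℓ hℓ hdeg hM (by rw [hΩ]; exact hbig)
      K hδs hQs hB₀ hCs h2' _ ⟨_, hE⟩
      hm hfin ι Vι (fun _ _ => True) w SG hh hK Q hQ hB hδ hC J hbj
      (fun v _ h => (hR₀ v).2 ⟨θ₁, by
        unfold Ctx.Fx
        exact Finset.mem_filter.2 ⟨hθ₁, h θ₁ hθ₁⟩⟩)
    exact Eq.mpr (congrArg (fun R : Set (Pr k × Fin ℓ) =>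
        TBRbt (cdL X ℓ ℓ hm hfin ι Vι (fun _ _ => True) w (ggL X ℓ hm w SG hh)) (1 / ℓ) R _ J) hset) hgoal

end Pool.Agent.MLT
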