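import Pool.Agent.Helper13.MLF.All
import Pool.Agent.Helper13.MLT.Fin2
import Pool.Agent.Helper13.MLT.G1X
import Pool.Agent.Helper13.MLT.G3T
import Pool.Agent.Helper99.MLT.CountLT

/-!
# Project MLT: the absolute bounds with hypothesis `HT`, proved
-/

set_option autoImplicit false

namespace Pool.Agent.MLT

open Pool.Agent.ML

theorem absT : StmtAbsT := by
  have hLM : StmtLM := lm (Pool.Agent.L.stmtK2 Pool.Agent.L.stmtK1) Pool.Agent.LN.k3 k4M
    Pool.Agent.L.stmtAR
  have hFIN : StmtFIN := fin hLM M.fT hf Pool.Agent.LN.fr Pool.Agent.L.stmtAR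
  have hINT : StmtINT := int hLM M.fT coc nR Pool.Agent.L.stmtAR
  have hQMD : StmtQMD := qMD (pI M.fT) w4 (qW M.fT (M.w1 M.fT)) w2
  exact absT_of Pool.Agent.LN.tr nR M.fb hFIN z hINT lft (mU M.fT) hQMD M.w3 sel
    Pool.Agent.Helper21.HG.mert Pool.Agent.Helper21.HG.split btl
    Pool.Agent.Helper88.HG.thue g4P g1X g2 Pool.Agent.MLT99.countLT cLL bIJ MP.dk g3T MP.pit
    lowK lowc

end Pool.Agent.MLT
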