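import Pool.Agent.Helper13.MLF.Abs
import Pool.Agent.Helper13.ML.G1

/-!
# Project MLT (MP_e66f84_ag): the relative form of project ML with prescribed conditions

The conditions at the components outside `J` determine the root of unity `u` of an option
`((t, u), i)`, if some orbit outside `J` has minimal `ℓ`-adic length.  With this the weight for `J` at
a prime whose Frobenius element fixes `a` elements of `J`, with `r` orbits on `J`, is at most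
`a ℓ ^ (1 - r)`, else `a ℓ ^ (2 - r)`.  If the lengths of all orbits outside `J` are divisible by `ℓ`
then the sum of the orders of `h` at the points of `J` is divisible by `ℓ`; for a conjugate pair this
is only possible if `ℓ = 2`.  Thus hypothesis `HL` (stable sets with `ℓ ^ j ≤ j ℓ ^ 2`) is only needed
for `j = 1`, and for `j = 2` if `ℓ = 2`: hypothesis `HT`.
-/

set_option autoImplicit false

namespace Pool.Agent.MLT

open Polynomial NumberField IsDedekindDomain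
open Pool.Agent.HG (Pr nm Ctx Gd)
open Pool.Agent.Helper99.HG (CD pf Nm Bad)
open Pool.Agent.MP (SysR TAR)
open Pool.Agent.Helper99.ML (BTb)
open Pool.Agent.ML (cdL ggL GBr HasMu HL)
open scoped IntermediateField

noncomputable section

/-! ## Counting -/

section count

variable {k : ℕ} {G : Type}

open scoped Classical in
/-- the weight of the prime `p` for the set of components `J`, where the products over the
components outside `J` are given (`TW.WJt` is the case `b = 1 / 2`) -/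
def WJbt (D : CD k G) (b : ℝ) (J : Finset (Fin k)) (t : Fin k → D.ι → G) (p : D.P) : ℝ :=
  ∑ o ∈ (D.V p).filter (fun o => D.cmp o ∈ J ∧ ∀ j, j ∉ J → ∀ i ∈ D.I p o j, t j i = D.g p o i),
    b ^ (∑ j ∈ J, (D.I p o j).card)

/-- the weights are less than `κ` in the mean, uniformly in the given products -/
def TBRbt (D : CD k G) (b : ℝ) (R : Set D.P) (κ : ℝ) (J : Finset (Fin k)) : Prop :=
  J.Nonempty ∧ ∃ δ C : ℝ, 0 < δ ∧ ∀ y x : ℕ, 2 ≤ y → y ≤ x → ∀ t : D.P → Fin k → D.ι → G,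
    ∀ S : Finset D.P, (∀ p, p ∈ S ↔ p ∈ R ∧ p ∉ D.Ex ∧ y < D.nm p ∧ D.nm p ≤ x) →
    ∑ p ∈ S, WJbt D b J (t p) p / D.nm p ≤
      (κ - δ) * (Real.log (Real.log x) - Real.log (Real.log y)) + C

/-- BLOCK CLT: the counting theorem `StmtCountL` with `TBRbt` instead of `TBRb`. -/
def StmtCountLT : Prop :=
  ∀ (k : ℕ) (G : Type) [CommGroup G] (D : CD k G) (b : ℝ), 0 < b → b ≤ 1 → ∀ Ok : Finset D.P → Prop,
    (∀ m c, m ⊆ c → Ok c → Ok m) → ∀ (R : Set D.P) (κ : ℝ), 0 < κ →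
    SysR D.P D.nm R κ → (∃ K : ℕ, ∀ p, (D.V p).card ≤ K) → BTb D b Ok →
    (∀ J : Finset (Fin k), TAR D R J ∨ TBRbt D b R κ J) →
    ∃ η C : ℝ, 0 < η ∧ 0 < C ∧ ∀ X : ℕ, 3 ≤ X → ∀ S : Finset (Finset D.P),
      (∀ c ∈ S, Nm D c ≤ X ∧ (∀ p ∈ pf D c, p ∈ R) ∧ Ok c ∧ Bad D c) →
      (S.card : ℝ) ≤ C * X * Real.log X ^ (κ - 1 - η)

end count

/-! ## The relations and the weights -/

/-- BLOCK G1X: the relations, with the explicit prescriptions `ggL`. -/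
def StmtG1X : Prop :=
  ML.StmtSel → ∀ (k L : Type) [Field k] [NumberField k] [Field L] [NumberField L] [Algebra k L]
    [IsGalois k L] (f : k[X]) (X : Ctx k L f) (n ℓ : ℕ) [NeZero ℓ], ℓ.Prime → ℓ ∣ n →
    (∃ ζ : k, IsPrimitiveRoot ζ ℓ) → ℓ ∣ X.M → 2 ≤ f.natDegree →
    ∀ (hm : 0 < X.m) (hfin : {v : Pr k | ¬ Gd X.M v}.Finite) (ι : Type)
      (Vι : Pr k → L → Finset ι) (Al : Fin n → L → Prop) (w : L → Fin n → ℕ)
      (SG : Pr k → ι → ℕ → L → L → rootsOfUnity ℓ k),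
    ∃ (H : Type) (_ : Finite H) (hh : H → L → L → L),
      ∀ (c : k) (S : Finset (Pr k × Fin n)) (D : L → L → L) (t : Pr k → L) (i : Pr k → ι),
      ML.DatL X n ℓ c S w D t (fun v => SG v (i v)) →
      (∀ v e, (v, e) ∈ S → i v ∈ Vι v (t v) ∧ Al e (t v)) →
      ∃ h : H, Bad (cdL X n ℓ hm hfin ι Vι Al w (ggL X ℓ hm w SG (hh h))) S

/-- `m` is the order of `h` modulo `ℓ`: Galois invariant, not zero at the roots, with sum zero. -/
structure IsOrd {k L : Type} [Field k] [Field L] [Algebra k L] (f : k[X]) (ℓ : ℕ) (m : L → ZMod ℓ) :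
    Prop where
  ne : ∀ θ ∈ f.rootSet L, m θ ≠ 0
  inv : ∀ σ : L ≃ₐ[k] L, ∀ θ ∈ f.rootSet L, m (σ θ) = m θ
  sum : ∑ θ ∈ (f.rootSet_finite L).toFinset, m θ = 0

open scoped Classical in
/-- BLOCK G3T: the weights, with multiplicities, relative to the primes with a root, degree `ℓ`
(`ML.StmtG3R` with the prescriptions `ggL` and `TBRbt`).  Only the stable sets with one element are
restricted, and those with two elements if `ℓ = 2`.  Let `J` have `j ≥ 2` elements, let `F v` have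
`a ≥ 1` fixed points and `r` orbits on `J`.  If `a < r` then the weight is at most
`a ℓ ^ (2 - r) ≤ a ℓ ^ (1 - a) ≤ 1`.  Let `a = r = j`.  If the length of some orbit outside `J` is
prime to `ℓ` then the weight is at most `j ℓ ^ (1 - j) ≤ 1`.  Otherwise the sum of `m` over `J` is
zero, which excludes the pairs for odd `ℓ` and `j = 3` for `ℓ = 2`, and the weight is at most
`j ℓ ^ (2 - j) ≤ 1`.  If `F v = 1` then it is at most `j ℓ ^ (1 - j) < 1`, or `J` is the set of all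
roots and it is at most `j ℓ ^ (2 - j) < 1`. -/
def StmtG3T : Prop :=
  HG.StmtMert → HG.StmtSplit → MP.StmtDK → M.StmtW3 → ∀ (k L : Type) [Field k] [NumberField k]
    [Field L] [NumberField L] [Algebra k L] [IsGalois k L] (f : k[X]) (ℓ : ℕ) [NeZero ℓ],
    ℓ.Prime → HasMu k ℓ → (∃ m : L → ZMod ℓ, IsOrd f ℓ m) →
    f.natDegree * ℓ ^ 2 < ℓ ^ f.natDegree →
    0 < f.natDegree →
    (∀ J : Finset L, (∀ σ : L ≃ₐ[k] L, ∀ θ ∈ J, σ θ ∈ J) → (J : Set L) ⊆ f.rootSet L →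
      (J.card ≤ 1 ∨ J.card = 2 ∧ ℓ = 2) →
      ∃ σ : L ≃ₐ[k] L, (∃ θ ∈ f.rootSet L, σ θ = θ) ∧ ∀ θ ∈ J, σ θ ≠ θ) →
    ∀ K : ℕ, ∃ ε : ℝ, 0 < ε ∧ ∀ (X : Ctx k L f) (hm : 0 < X.m)
      (hfin : {v : Pr k | ¬ Gd X.M v}.Finite) (ι : Type) (Vι : Pr k → L → Finset ι)
      (w : L → Fin ℓ → ℕ) (SG : Pr k → ι → ℕ → L → L → rootsOfUnity ℓ k) (hh : L → L → L),
      (∀ v t, (Vι v t).card ≤ K) →
      ∀ Q : Set (Pr k), (∀ v ∉ Q, Gd X.M v → ∀ t, (Vι v t).card ≤ 1) →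
      ∀ B : ℕ → Finset (Pr k), (∀ x v, v ∈ B x ↔ nm v ≤ x) → ∀ δ C : ℝ, δ ≤ ε →
      (∀ x : ℕ, 2 ≤ x → |∑ v ∈ (B x).filter (· ∈ Q), (1 : ℝ) / nm v -
        δ * Real.log (Real.log x)| ≤ C) →
      SysR (Pr k × Fin ℓ) (fun p => nm p.1) {p | ¬ ℓ ∣ (p.2 : ℕ) ∧ (X.Fx p.1).Nonempty}
        (((ℓ - 1 : ℕ) : ℝ) *
          ((Nat.card {σ : L ≃ₐ[k] L // ∃ θ ∈ X.Ω, σ θ = θ} : ℝ) / Nat.card (L ≃ₐ[k] L))) ∧
      (∃ K' : ℕ, ∀ p, ((cdL X ℓ ℓ hm hfin ι Vι (fun _ _ => True) w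
        (ggL X ℓ hm w SG hh)).V p).card ≤ K') ∧
      ∀ J : Finset (Fin X.m),
        TAR (cdL X ℓ ℓ hm hfin ι Vι (fun _ _ => True) w (ggL X ℓ hm w SG hh))
          {p : Pr k × Fin ℓ | ¬ ℓ ∣ (p.2 : ℕ) ∧ (X.Fx p.1).Nonempty} J ∨
        TBRbt (cdL X ℓ ℓ hm hfin ι Vι (fun _ _ => True) w (ggL X ℓ hm w SG hh)) (1 / ℓ)
          {p : Pr k × Fin ℓ | ¬ ℓ ∣ (p.2 : ℕ) ∧ (X.Fx p.1).Nonempty}
          (((ℓ - 1 : ℕ) : ℝ) *
            ((Nat.card {σ : L ≃ₐ[k] L // ∃ θ ∈ X.Ω, σ θ = θ} : ℝ) / Nat.card (L ≃ₐ[k] L))) J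

/-! ## The final theorem -/

/-- Hypothesis `HT`: `n ℓ ^ 2 < ℓ ^ n` for the number `n` of geometric branch points (`n ≥ 5` for
`ℓ = 2`, `n ≥ 4` for `ℓ = 3`, `n ≥ 3` for `ℓ ≥ 5`), and for every Galois stable set `J` of at most one
of them, or of two of them if `ℓ = 2`, some `σ` fixes a branch point, but none in `J`. -/
def HT (k : Type) {K0 : Type} [Field k] [Field K0] [Algebra k K0] (ℓ : ℕ) (h : K0) : Prop :=
  Nat.card (GBr k (AlgebraicClosure k) ℓ h) * ℓ ^ 2 < ℓ ^ Nat.card (GBr k (AlgebraicClosure k) ℓ h) ∧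
  ∀ J : Finset (GBr k (AlgebraicClosure k) ℓ h), (∀ g, ∀ b ∈ J, b.map g ∈ J) →
    (J.card ≤ 1 ∨ J.card = 2 ∧ ℓ = 2) →
    ∃ σ : AlgebraicClosure k ≃ₐ[k] AlgebraicClosure k,
      (∃ b : GBr k (AlgebraicClosure k) ℓ h, b.map σ = b) ∧ ∀ b ∈ J, b.map σ ≠ b

/-- The absolute bounds (`MLF.StmtAbsL`) with hypothesis `HT`. -/
def StmtAbsT : Prop :=
  ∀ (k K0 : Type) [Field k] [NumberField k] [Field K0] [Algebra k K0] (ℓ : ℕ) (h : K0),
    ℓ.Prime → HasMu k ℓ → LN.GoodCurve k ℓ h → HT k ℓ h →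
    (∀ c : k, c ≠ 0 → ¬ LN.HasSec ℓ h c) ∨
    ∃ κ η C : ℝ, 0 < κ ∧ 0 < η ∧ 0 < C ∧
      (∀ X : ℕ, 3 ≤ X → ∀ T : Finset k,
        (∀ c ∈ T, ∀ c' ∈ T, (∃ d : k, c = c' * d ^ ℓ) → c = c') →
        (∀ c ∈ T, c ≠ 0 ∧ LN.cond ℓ c ≤ X ∧ LN.HasSec ℓ h c) →
        (T.card : ℝ) ≤ C * (X * Real.log X ^ (κ - 1)) / Real.log X ^ η) ∧
      ∀ (Sg : Set (Pr k)), Sg.Finite → ∀ (W : Subgroup kˣ), W.FiniteIndex → ∀ c₀ : kˣ,
        (∀ v ∉ Sg, LN.IsRam ℓ v (c₀ : k) → ML.FrobFix k ℓ h v) →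
        ∃ (δ : ℝ) (X₀ : ℕ), 0 < δ ∧ ∀ X : ℕ, X₀ ≤ X → ∃ T : Finset kˣ,
          (∀ c ∈ T, ∀ c' ∈ T, (∃ d : k, (c : k) = c' * d ^ ℓ) → c = c') ∧
          (∀ c ∈ T, LN.cond ℓ (c : k) ≤ X ∧ c₀⁻¹ * c ∈ W ∧
            ∀ v ∉ Sg, LN.IsRam ℓ v (c : k) → ML.FrobFix k ℓ h v) ∧
          δ * (X * Real.log X ^ (κ - 1)) ≤ T.card

end

end Pool.Agent.MLT
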