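import Pool.Agent.Helper13.MLT.Defs

/-!
# Project MLT: the upper bound (`ML.upperL`, `ML.upperR` with prescribed conditions)
-/

set_option autoImplicit false
set_option linter.unusedSectionVars false

namespace Pool.Agent.MLT

open VC IntermediateField NumberField IsDedekindDomain Pool.Agent.SC
open Pool.Agent.L (Inert L0 MM SamePlace OverV)
open Pool.Agent.LN (Geo Act HasSec GoodCurve IsRam DecPt)
open Pool.Agent.M (UR NN Moves OverPl inL0 lt_iff13 eq_iff13 eq_iffk13 exists_res13 exists_lift13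
  mem_range13 inert_triv13 exists_M13)
open Pool.Agent.HG (Pr nm Ctx Gd)
open Pool.Agent.MP (SysR TAR coverK kap kap_eq kap_pos kap_le)
open Pool.Agent.Helper99.ML (BTb)
open Pool.Agent.ML

open scoped Classical in
/-- the upper bound for the number of the sets of labels prime to `ℓ` -/
theorem upperLT (hFIN : StmtFIN) (hZ : StmtZ) (hINT : StmtINT) (hLFT : StmtLFT) (hMU : StmtMU)
    (hQMD : StmtQMD) (hW3 : M.StmtW3) (hSel : StmtSel) (hMert : HG.StmtMert) (hBTL : StmtBTL)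
    (hThue : HG.StmtThue) (hG4 : StmtG4P) (hG1 : StmtG1X) (hG2 : StmtG2)
    (hCount : StmtCountLT)
    {k K0 E U : Type} [Field k] [NumberField k]
    [Field K0] [Field E] [Field U] [Algebra k K0]
    [Algebra k E] [Algebra E U] [Algebra K0 U] [Algebra k U] [IsScalarTower k E U]
    [IsScalarTower k K0 U] {n ℓ : ℕ} [NeZero ℓ] (hn : 0 < n) (hℓ : ℓ.Prime) (hln : ℓ ∣ n)
    (hmu : HasMu k ℓ) {h : K0} {r : U} (G : Geo k K0 E U n h r)
    {f : Polynomial k} (hsep : f.Separable) (hdeg : 2 ≤ f.natDegree)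
    [NumberField f.SplittingField] [IsGalois k f.SplittingField] (ι : f.SplittingField →ₐ[k] E)
    {θL : Place E (L0 E K0 (U := U)) → f.SplittingField}
    {bt : f.SplittingField → Place E (L0 E K0 (U := U))}
    (hGl : ∀ (X : Ctx k f.SplittingField f) (c : k) (Φ : (E ≃ₐ[k] E) →* (U ≃+* U)), c ≠ 0 →
      Act (K0 := K0) n r c Φ → Gl ℓ h Φ X ι θL bt)
    (hpl : Nonempty (Place E (NN E K0 ℓ (U := U))))
    (Al : Fin n → f.SplittingField → Prop) (hAl : ∀ e θ, AlL (k := k) n ℓ h bt e θ → Al e θ)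
    (R : Ctx k f.SplittingField f → Set (Pr k × Fin n)) (κ : ℝ) (hκ : 0 < κ)
    (hR : ∀ (X : Ctx k f.SplittingField f) (v : Pr k) (e : Fin n) (t : f.SplittingField),
      Gd X.M v → ¬ ℓ ∣ (e : ℕ) → t ∈ X.Ω → X.F v t = t → (v, e) ∈ R X)
    (hG3 : ∀ K : ℕ, ∃ ε : ℝ, 0 < ε ∧ ∀ (X : Ctx k f.SplittingField f) (hm : 0 < X.m)
      (hfin : {v : Pr k | ¬ Gd X.M v}.Finite) (ι : Type) (Vι : Pr k → f.SplittingField → Finset ι)
      (w : f.SplittingField → Fin n → ℕ)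
      (SG : Pr k → ι → ℕ → f.SplittingField → f.SplittingField → rootsOfUnity ℓ k)
      (hh : f.SplittingField → f.SplittingField → f.SplittingField),
      (∀ v t, (Vι v t).card ≤ K) →
      ∀ Q : Set (Pr k), (∀ v ∉ Q, Gd X.M v → ∀ t, (Vι v t).card ≤ 1) →
      ∀ B : ℕ → Finset (Pr k), (∀ x v, v ∈ B x ↔ nm v ≤ x) → ∀ δ C : ℝ, δ ≤ ε →
      (∀ x : ℕ, 2 ≤ x → |∑ v ∈ (B x).filter (· ∈ Q), (1 : ℝ) / nm v -
        δ * Real.log (Real.log x)| ≤ C) →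
      SysR (Pr k × Fin n) (fun p => nm p.1) (R X) κ ∧
      (∃ K' : ℕ, ∀ p, ((cdL X n ℓ hm hfin ι Vι Al w (ggL X ℓ hm w SG hh)).V p).card ≤ K') ∧
      ∀ J : Finset (Fin X.m),
        TAR (cdL X n ℓ hm hfin ι Vι Al w (ggL X ℓ hm w SG hh)) (R X) J ∨
        TBRbt (cdL X n ℓ hm hfin ι Vι Al w (ggL X ℓ hm w SG hh)) (1 / ℓ) (R X) κ J) :
    ∃ (M : ℕ) (η C : ℝ), M ≠ 0 ∧ 0 < η ∧ 0 < C ∧ ∀ Y : ℕ, 3 ≤ Y →
      ∀ SS : Finset (Finset (Pr k × Fin n)),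
      (∀ A ∈ SS, ∏ p ∈ A, nm p.1 ≤ Y ∧ ∃ c : k, c ≠ 0 ∧
        (∃ Φ : (E ≃ₐ[k] E) →* (U ≃+* U), Act (K0 := K0) n r c Φ) ∧
        ∀ v e, (v, e) ∈ A ↔ Gd M v ∧ ¬ ℓ ∣ (e : ℕ) ∧ Lab n v (e : ℕ) c) →
      (SS.card : ℝ) ≤ C * (Y * Real.log Y ^ (κ - 1)) / Real.log Y ^ η := by
  have hclE : IsAlgClosed E := G.clE
  have halg : Algebra.IsAlgebraic k E := G.algE
  have hcE : CharZero E := charZero_of_injective_algebraMap (algebraMap k E).injective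
  have hsplit : (f.map (algebraMap k f.SplittingField)).Splits := Polynomial.SplittingField.splits f
  -- the number of places over a place
  obtain ⟨⟨K, hK⟩, hMU2⟩ := hMU k K0 E U n ℓ h r hn hℓ hln hmu G
  -- the density
  obtain ⟨ε, hε, hG3'⟩ := hG3 K
  obtain ⟨m, Lm, hm1, hLf, hLg, hdens⟩ := hQMD k K0 E U n ℓ h r hn hℓ hln hmu G ε hε
  -- the finitely many actions
  obtain ⟨I, hI, c₁, Φ₁, hΦ₁, hcls⟩ := hFIN k K0 E U n ℓ h r hn hℓ hln hmu G m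
  obtain ⟨zz, hzz⟩ := exists_zz hZ hn hℓ hln hmu G
  choose Bad hBad hint using fun i => hINT k K0 E U n ℓ h r hn hℓ hln hmu G m hm1 (c₁ i) (Φ₁ i)
    (hΦ₁ i).1 (hΦ₁ i).2 zz hzz
  obtain ⟨B, hB⟩ := Pool.Agent.HG.exists_B5 k
  choose δ C₀ Bad' Q hδ hBad' hQ hsum using fun i => exists_Q hW3 G (hΦ₁ i).2 (ℓ := ℓ) (m := m) Lm
    hLf hLg (hdens (c₁ i) (Φ₁ i) (hΦ₁ i).1 (hΦ₁ i).2) B hB
  -- the excluded number
  obtain ⟨M₁, hM₁, hM₁v⟩ := exists_M13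
    ((Set.finite_iUnion hBad).union (Set.finite_iUnion hBad'))
  obtain ⟨M₂, hM₂, hlft⟩ := hLFT k f.SplittingField E ι
  obtain ⟨X, hMX, hm, hfin⟩ := hG4 hThue k f.SplittingField f hsep hsplit (by omega)
    (M₁ * M₂ * ℓ)
    (mul_ne_zero (mul_ne_zero hM₁ hM₂) hℓ.ne_zero)
  have hM₁X : M₁ ∣ X.M := ((Dvd.intro _ rfl).trans (Dvd.intro _ rfl)).trans hMX
  have hM₂X : M₂ ∣ X.M := ((Dvd.intro_left _ rfl).trans (Dvd.intro _ rfl)).trans hMX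
  have hlM : ℓ ∣ X.M := (Dvd.intro_left _ rfl).trans hMX
  have hXBad : ∀ i, ∀ v ∈ Bad i, ¬ Gd X.M v := fun i v hv =>
    hM₁v X.M hM₁X v (Or.inl (Set.mem_iUnion.2 ⟨i, hv⟩))
  have hXBad' : ∀ i, ∀ v ∈ Bad' i, ¬ Gd X.M v := fun i v hv =>
    hM₁v X.M hM₁X v (Or.inr (Set.mem_iUnion.2 ⟨i, hv⟩))
  -- the Frobenius elements
  have hlift : ∀ v : Pr k, ∃ (O : ValuationSubring E) (F : E ≃ₐ[k] E) (p f' : ℕ), Gd X.M v →
      DecPt v O F p f' ∧ (∀ z : f.SplittingField, ι z ∈ O ↔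
        (X.P v).valuation f.SplittingField z ≤ 1) ∧ ∀ z, F (ι z) = ι (X.F v z) := by
    intro v
    by_cases hv : Gd X.M v
    · obtain ⟨O, F, p, f', h1⟩ := hlft f X hM₂X v hv
      exact ⟨O, F, p, f', fun _ => h1⟩
    · exact ⟨⊤, 1, 0, 0, fun h1 => absurd h1 hv⟩
  choose O F p f' hdec using hlift
  -- the options
  let VS : I → Pr k → f.SplittingField → Set (Place E (NN E K0 ℓ (U := U))) := fun i v t =>
    {P | Gd X.M v ∧ OverPl (bt t) P ∧ ∃ Q : Place E (NN E K0 (ℓ ^ m) (U := U)), OverPl P Q ∧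
      Moves (Φ₁ i (F v)) _ Q Q}
  have hVSsub : ∀ i v t, VS i v t ⊆ {P : Place E (NN E K0 ℓ (U := U)) | OverPl (bt t) P} :=
    fun i v t P hP => hP.2.1
  have hVSfin : ∀ i v t, (VS i v t).Finite := fun i v t => (hK (bt t)).1.subset (hVSsub i v t)
  let Vι : I → Pr k → f.SplittingField → Finset (Place E (NN E K0 ℓ (U := U))) := fun i v t =>
    (hVSfin i v t).toFinset
  have hVιmem : ∀ i v t P, P ∈ Vι i v t ↔ P ∈ VS i v t := fun i v t P =>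
    Set.Finite.mem_toFinset _
  have hVιK : ∀ i v t, (Vι i v t).card ≤ K := by
    intro i v t
    refine le_trans ?_ (hK (bt t)).2
    have h1 : (Vι i v t).card = (VS i v t).ncard := (Set.ncard_eq_toFinset_card _ _).symm
    rw [h1]
    have h2 := Set.ncard_le_ncard (hVSsub i v t) (hK (bt t)).1
    rwa [← Nat.card_coe_set_eq {P : Place E (NN E K0 ℓ (U := U)) | OverPl (bt t) P}] at h2
  have hVι1 : ∀ i, ∀ v ∉ Q i, Gd X.M v → ∀ t, (Vι i v t).card ≤ 1 := by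
    intro i v hvQ hgd t
    have hnQM : ¬ QM E K0 ℓ m (Φ₁ i (F v)) :=
      hQ i v (fun h1 => hXBad' i v h1 hgd) (O v) (F v) (p v) (f' v) (hdec v hgd).1 hvQ
    rw [Finset.card_le_one]
    intro P hP P' hP'
    rw [hVιmem] at hP hP'
    obtain ⟨_, h1, R, h2, h3⟩ := hP
    obtain ⟨_, h1', R', h2', h3'⟩ := hP'
    exact hMU2 (c₁ i) (Φ₁ i) (hΦ₁ i).1 (hΦ₁ i).2 m (F v) hm1 hnQM (bt t) P P' R R' h1 h1' h2 h2'
      h3 h3'
  -- the signs
  let SG : I → Pr k → Place E (NN E K0 ℓ (U := U)) → ℕ → f.SplittingField → f.SplittingField →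
      rootsOfUnity ℓ k := fun i v P N x x' => sgn ℓ (Φ₁ i (F v) ^ N) P (zz (bt x) (bt x'))
  obtain ⟨w, hw1, hw2⟩ := exists_w (n := n) hℓ fun x : f.SplittingField =>
    ord (bt x).ring (inL0 h)
  -- the relations
  choose H hH g₀ hg using fun i => hG1 hSel k f.SplittingField f X n ℓ hℓ hln hmu hlM
    (by omega) hm hfin (Place E (NN E K0 ℓ (U := U))) (Vι i) Al w (SG i)
  have hHI : Finite (Σ i, H i) := inferInstance
  let g := fun (i : I) (j : H i) => ggL X ℓ hm w (SG i) (g₀ i j)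
  have hg0 : ∀ Y : ℕ, (0 : ℝ) ≤ Y * Real.log Y ^ (κ - 1) := fun Y =>
    mul_nonneg (Nat.cast_nonneg Y) (Real.rpow_nonneg (Real.log_natCast_nonneg Y) _)
  have hb0 : (0 : ℝ) < 1 / ℓ := by
    have : (0 : ℝ) < ℓ := by exact_mod_cast hℓ.pos
    positivity
  have hb1 : (1 : ℝ) / ℓ ≤ 1 := by
    have : (1 : ℝ) ≤ ℓ := by exact_mod_cast hℓ.one_lt.le
    rw [div_le_one (by linarith)]
    exact this
  have hOk : ∀ m c : Finset (Pr k × Fin n), m ⊆ c → OkL c → OkL m := fun m c hmc hc =>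
    hc.mono hmc
  obtain ⟨η, C, hη, hC, hbound⟩ := coverK (H := Σ i, H i) (P := Pr k × Fin n)
    (fun Y : ℕ => Y * Real.log Y ^ (κ - 1)) hg0
    (fun j Y A => ∏ p ∈ A, nm p.1 ≤ Y ∧
      (∀ p ∈ Pool.Agent.Helper99.HG.pf
        (cdL X n ℓ hm hfin (Place E (NN E K0 ℓ (U := U))) (Vι j.1) Al w (g j.1 j.2)) A,
        p ∈ R X) ∧ OkL A ∧
      Pool.Agent.Helper99.HG.Bad
      (cdL X n ℓ hm hfin (Place E (NN E K0 ℓ (U := U))) (Vι j.1) Al w (g j.1 j.2)) A) (by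
    rintro ⟨i, j⟩
    obtain ⟨a1, a2, a3⟩ := hG3' X hm hfin (Place E (NN E K0 ℓ (U := U))) (Vι i) w (SG i) (g₀ i j)
      (hVιK i) (Q i) (hVι1 i) B hB (δ i) (C₀ i) (hδ i) (hsum i)
    obtain ⟨η, C, hη, hC, h1⟩ := hCount X.m (rootsOfUnity ℓ k)
      (cdL X n ℓ hm hfin (Place E (NN E K0 ℓ (U := U))) (Vι i) Al w (g i j)) (1 / ℓ) hb0 hb1
      OkL hOk (R X) κ hκ a1 a2
      (hG2 hBTL hMert k f.SplittingField f X n ℓ hℓ hmu hlM hm hfin _ (Vι i) Al w (g i j)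
        fun e θ _ => hw2 θ e) a3
    refine ⟨η, C, hη, hC, fun Y hY S hS => (h1 Y hY S hS).trans (le_of_eq ?_)⟩
    have hlY : 0 < Real.log Y := Real.log_pos (by
      have h2 : (3 : ℝ) ≤ Y := by exact_mod_cast hY
      linarith)
    rw [Real.rpow_sub hlY, mul_div_assoc, mul_div_assoc, mul_assoc])
  refine ⟨X.M, η, C, X.hM, hη, hC, fun Y hY SS hSS => hbound Y hY SS fun A hA => ?_⟩
  obtain ⟨h2, c, hc, ⟨Φ, hΦ⟩, hAS⟩ := hSS A hA
  obtain ⟨i, hi⟩ := hcls c Φ hc hΦ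
  obtain ⟨δ', hδ'⟩ := hint i c Φ hc hΦ hi
  have hGlX := hGl X (c₁ i) (Φ₁ i) (hΦ₁ i).1 (hΦ₁ i).2
  obtain ⟨D, t, P, hD, hP⟩ := exists_datL hn hℓ hln hmu hlM hGlX (hXBad i) hc hδ' (O := O) (F := F)
    (p' := p) (f' := f') hdec hAS (w := w) fun x hx e he => hw1 x (hGlX.bt_mem x hx) e he
  obtain ⟨j, hj⟩ := hg i c A D t P hD (by
    intro v e hv
    obtain ⟨h3, h4, h5⟩ := hP v e hv
    rw [hVιmem]
    exact ⟨⟨((hAS v e).1 hv).1, h4, h5⟩, hAl e _ h3⟩)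
  refine ⟨⟨i, j⟩, h2, ?_, ?_, hj⟩
  · rintro ⟨v, e⟩ hv
    have hvA : (v, e) ∈ A := (Pool.Agent.Helper99.HG.mem_pf.1 hv).1
    exact hR X v e (t v) ((hAS v e).1 hvA).1 ((hAS v e).1 hvA).2.1 (hD.t_mem v e hvA)
      (hD.t_fix v e hvA)
  · rintro ⟨v, e⟩ hv ⟨v', e'⟩ hv' hvv
    have hvv' : v = v' := hvv
    subst hvv'
    have h3 : e = e' := hD.uniq hv hv'
    rw [h3]

open scoped Classical in
/-- the upper bound for the twists with sections -/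
theorem upperRT (hFIN : StmtFIN) (hZ : StmtZ) (hINT : StmtINT) (hLFT : StmtLFT) (hMU : StmtMU)
    (hQMD : StmtQMD) (hW3 : M.StmtW3) (hSel : StmtSel) (hMert : HG.StmtMert)
    (hSplit : HG.StmtSplit) (hBTL : StmtBTL)
    (hThue : HG.StmtThue) (hG4 : StmtG4P) (hG1 : StmtG1X) (hG2 : StmtG2)
    (hCount : StmtCountLT) (hCLL : StmtCLL) (hDK : MP.StmtDK)
    (hG3T : StmtG3T)
    {k K0 E U : Type} [Field k] [NumberField k]
    [Field K0] [Field E] [Field U] [Algebra k K0]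
    [Algebra k E] [Algebra E U] [Algebra K0 U] [Algebra k U] [IsScalarTower k E U]
    [IsScalarTower k K0 U] {ℓ : ℕ} (hℓ : ℓ.Prime)
    (hmu : HasMu k ℓ) {h : K0} {r : U} (G : Geo k K0 E U ℓ h r)
    {f : Polynomial k} {θ : Place E (L0 E K0 (U := U)) → E} (Gl' : GlE ℓ ℓ h r f θ)
    (hdeg : 2 ≤ f.natDegree)
    (hord : ∀ (L : Type) [Field L] [NumberField L] [Algebra k L] [IsGalois k L],
      (f.map (algebraMap k L)).Splits → ∃ m : L → ZMod ℓ, IsOrd f ℓ m)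
    (hbig : f.natDegree * ℓ ^ 2 < ℓ ^ f.natDegree)
    (hHT : ∀ (L : Type) [Field L] [NumberField L] [Algebra k L] [IsGalois k L],
      (f.map (algebraMap k L)).Splits →
      ∀ J : Finset L, (∀ σ : L ≃ₐ[k] L, ∀ θ ∈ J, σ θ ∈ J) → (J : Set L) ⊆ f.rootSet L →
      (J.card ≤ 1 ∨ J.card = 2 ∧ ℓ = 2) →
      ∃ σ : L ≃ₐ[k] L, (∃ θ ∈ f.rootSet L, σ θ = θ) ∧ ∀ θ ∈ J, σ θ ≠ θ) :
    ∃ η C : ℝ, 0 < η ∧ 0 < C ∧ ∀ X : ℕ, 3 ≤ X → ∀ T : Finset k,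
      (∀ c ∈ T, ∀ c' ∈ T, (∃ d : k, c = c' * d ^ ℓ) → c = c') →
      (∀ c ∈ T, c ≠ 0 ∧ LN.cond ℓ c ≤ X ∧
        ∃ Φ : (E ≃ₐ[k] E) →* (U ≃+* U), Act (K0 := K0) ℓ r c Φ) →
      (T.card : ℝ) ≤ C * (X * Real.log X ^ (((ℓ - 1 : ℕ) : ℝ) * kap f - 1)) / Real.log X ^ η := by
  have hNeZ : NeZero ℓ := ⟨hℓ.ne_zero⟩
  have hclE : IsAlgClosed E := G.clE
  have halg : Algebra.IsAlgebraic k E := G.algE
  have hcE : CharZero E := charZero_of_injective_algebraMap (algebraMap k E).injective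
  have hNF : NumberField f.SplittingField := NumberField.of_module_finite k f.SplittingField
  have hGal : IsGalois k f.SplittingField := IsGalois.of_separable_splitting_field Gl'.sep
  have hsplit : (f.map (algebraMap k f.SplittingField)).Splits := Polynomial.SplittingField.splits f
  let ι : f.SplittingField →ₐ[k] E := IsAlgClosed.lift
  -- a branch point
  obtain ⟨b₀, hb₀⟩ : ∃ b : Place E (L0 E K0 (U := U)), BPl ℓ h b := by
    obtain ⟨x, hx⟩ := IsAlgClosed.exists_aeval_eq_zero E f (by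
      intro h0
      have := Polynomial.natDegree_eq_zero_iff_degree_le_zero.2 h0.le
      omega)
    obtain ⟨b, hb, _⟩ := Gl'.ex x hx
    exact ⟨b, hb⟩
  have hpl : Nonempty (Place E (NN E K0 ℓ (U := U))) := exists_pl ℓ (b := b₀)
  obtain ⟨θL, bt, hbt, hθL, hGl⟩ := exists_gl Gl' ι b₀
  have hκ : 0 < ((ℓ - 1 : ℕ) : ℝ) * kap f := by
    have h1 : (0 : ℝ) < ((ℓ - 1 : ℕ) : ℝ) := by
      have := hℓ.two_le
      exact_mod_cast (by omega : 0 < ℓ - 1)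
    exact mul_pos h1 (kap_pos (by omega))
  obtain ⟨M, η, C, hM, hη, hC, hup⟩ := upperLT hFIN hZ hINT hLFT hMU hQMD hW3 hSel hMert hBTL
    hThue hG4 hG1 hG2 hCount hℓ.pos hℓ dvd_rfl hmu G Gl'.sep hdeg ι hGl hpl (fun _ _ => True)
    (fun _ _ _ => trivial)
    (fun X => {p : Pr k × Fin ℓ | ¬ ℓ ∣ (p.2 : ℕ) ∧ (X.Fx p.1).Nonempty})
    (((ℓ - 1 : ℕ) : ℝ) * kap f) hκ
    (fun X v e t _ h1 h2 h3 => ⟨h1, t, Finset.mem_filter.2 ⟨h2, h3⟩⟩) (by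
      intro K
      obtain ⟨ε, hε, hG3⟩ := hG3T hMert hSplit hDK hW3 k f.SplittingField f ℓ hℓ hmu
        (hord f.SplittingField hsplit) hbig
        (by omega) (hHT f.SplittingField hsplit) K
      refine ⟨ε, hε, fun X hm hfin ι Vι w SG hh hV Q hQ B hB δ C hδ hs => ?_⟩
      have h1 := hG3 X hm hfin ι Vι w SG hh hV Q hQ B hB δ C hδ hs
      rw [kap_eq X] at h1
      exact h1)
  obtain ⟨F, hF⟩ := cls_of_labels hCLL hℓ
    (fun c : k => ∃ Φ : (E ≃ₐ[k] E) →* (U ≃+* U), Act (K0 := K0) ℓ r c Φ) hM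
    (fun Y : ℕ => C * (Y * Real.log Y ^ (((ℓ - 1 : ℕ) : ℝ) * kap f - 1)) / Real.log Y ^ η) hup
  refine ⟨η, (F + 1) * C, hη, by positivity, fun Y hY T hT hTc => ?_⟩
  have hlog : 0 ≤ Real.log Y := Real.log_natCast_nonneg Y
  refine (hF Y hY T hT hTc).trans ?_
  have h3 : 0 ≤ C * (Y * Real.log Y ^ (((ℓ - 1 : ℕ) : ℝ) * kap f - 1)) / Real.log Y ^ η :=
    div_nonneg (mul_nonneg hC.le (mul_nonneg (Nat.cast_nonneg Y) (Real.rpow_nonneg hlog _)))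
      (Real.rpow_nonneg hlog _)
  have h4 : (F : ℝ) * (C * (Y * Real.log Y ^ (((ℓ - 1 : ℕ) : ℝ) * kap f - 1)) / Real.log Y ^ η) ≤
      (F + 1) * (C * (Y * Real.log Y ^ (((ℓ - 1 : ℕ) : ℝ) * kap f - 1)) / Real.log Y ^ η) :=
    mul_le_mul_of_nonneg_right (by linarith) h3
  refine h4.trans (le_of_eq ?_)
  ring

end Pool.Agent.MLT
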