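import Pool.Agent.Helper13.MLT.All

/-!
# Project MLT: the twists soluble at the primes which divide them
-/

set_option autoImplicit false
set_option linter.unusedSectionVars false

namespace Pool.Agent.MLT

open NumberField IsDedekindDomain
open Pool.Agent.HG (Pr nm)
open Pool.Agent.LN (HasSec GoodCurve IsRam)
open Pool.Agent.ML (clsU clsU_finite clsU_le le_clsU FrobFix HasMu)
open Pool.Agent.MLF

noncomputable section

/-- The bounds for the twists soluble at `S` and at the primes which divide them. -/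
theorem locSol_bounds (hAbs : StmtAbsT) (hL1 : StmtL1L) (hL2 : StmtL2L) (hL4 : StmtL4L)
    {k K0 : Type} [Field k] [NumberField k] [Field K0] [Algebra k K0] {ℓ : ℕ} (hℓ : ℓ.Prime)
    (hmu : HasMu k ℓ) {h : K0} (hG : GoodCurve k ℓ h) (hHT : HT k ℓ h) :
    (∀ c : k, c ≠ 0 → ¬ HasSec ℓ h c) ∨
    ∃ κ η C : ℝ, 0 < κ ∧ 0 < η ∧ 0 < C ∧
      (∀ (P : kˣ → Prop) (X : ℕ), 3 ≤ X →
        (Nat.card (clsU ℓ (fun c : kˣ => P c ∧ HasSec ℓ h (c : k)) X) : ℝ) ≤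
          C * (X * Real.log X ^ (κ - 1)) / Real.log X ^ η) ∧
      ∀ S : Set (Pr k), S.Finite → ∀ c₀ : kˣ, LocSol ℓ h S (c₀ : k) →
        ∃ (δ : ℝ) (X₀ : ℕ), 0 < δ ∧ ∀ X : ℕ, X₀ ≤ X →
          δ * (X * Real.log X ^ (κ - 1)) ≤
            Nat.card (clsU ℓ (fun c : kˣ => LocSol ℓ h S (c : k)) X) := by
  rcases hAbs k K0 ℓ h hℓ hmu hG hHT with h0 | ⟨κ, η, C, hκ, hη, hC, hup, hlow⟩
  · exact Or.inl h0
  refine Or.inr ⟨κ, η, C, hκ, hη, hC, fun P X hX => ?_, fun S hS c₀ hc₀ => ?_⟩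
  · refine clsU_le hℓ.two_le _ X _ fun T hT1 hT2 => ?_
    refine hup X hX T hT1 fun c hc => ?_
    obtain ⟨c', rfl, h1, -, h2⟩ := hT2 c hc
    exact ⟨c'.ne_zero, h1, h2⟩
  · obtain ⟨Sg, W, hSg, hW, h1, h2⟩ := exists_coset hL1 hL2 hL4 hℓ hmu hG hS hc₀
    obtain ⟨δ, X₀, hδ, h3⟩ := hlow Sg hSg W hW c₀ h1
    refine ⟨δ, X₀, hδ, fun X hX => ?_⟩
    obtain ⟨T, hT1, hT2, hT3⟩ := h3 X hX
    refine hT3.trans ?_
    have h4 := le_clsU hℓ.two_le (fun c : kˣ => LocSol ℓ h S (c : k)) X T hT1 fun c hc =>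
      ⟨(hT2 c hc).1, h2 c (hT2 c hc).2.1 (hT2 c hc).2.2⟩
    exact_mod_cast h4

/-- The proportion of the twists with a section among the locally soluble ones. -/
theorem ratio_of (hAbs : StmtAbsT) (hL1 : StmtL1L) (hL2 : StmtL2L) (hL4 : StmtL4L)
    {k K0 : Type} [Field k] [NumberField k] [Field K0] [Algebra k K0] {ℓ : ℕ} (hℓ : ℓ.Prime)
    (hmu : HasMu k ℓ) {h : K0} (hG : GoodCurve k ℓ h) (hHT : HT k ℓ h) :
    ∃ η : ℝ, 0 < η ∧ ∀ S : Set (Pr k), S.Finite → ∃ C : ℝ, 0 < C ∧ ∀ X : ℕ, 3 ≤ X →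
      (Nat.card (clsU ℓ (fun c : kˣ => LocSol ℓ h S (c : k) ∧ HasSec ℓ h (c : k)) X) : ℝ) ≤
        C * Nat.card (clsU ℓ (fun c : kˣ => LocSol ℓ h S (c : k)) X) / Real.log X ^ η := by
  have hlog : ∀ X : ℕ, 3 ≤ X → 0 < Real.log X := fun X hX => Real.log_pos (by
    have h1 : (3 : ℝ) ≤ X := by exact_mod_cast hX
    linarith)
  have hempty : ∀ (P : kˣ → Prop) (X : ℕ), (∀ c, ¬ P c) → Nat.card (clsU ℓ P X) = 0 := by
    intro P X hP
    have h1 : clsU ℓ P X = ∅ := by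
      rw [Set.eq_empty_iff_forall_notMem]
      rintro _ ⟨c, -, -, h2⟩
      exact hP c h2
    rw [h1, Nat.card_coe_set_eq, Set.ncard_empty]
  rcases locSol_bounds hAbs hL1 hL2 hL4 hℓ hmu hG hHT with h0 | ⟨κ, η, C, hκ, hη, hC, hup, hlow⟩
  · refine ⟨1, one_pos, fun S _ => ⟨1, one_pos, fun X hX => ?_⟩⟩
    rw [hempty (fun c : kˣ => LocSol ℓ h S (c : k) ∧ HasSec ℓ h (c : k)) X
      fun c h1 => h0 c c.ne_zero h1.2]
    have := hlog X hX
    rw [Nat.cast_zero]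
    positivity
  refine ⟨η, hη, fun S hS => ?_⟩
  by_cases hex : ∃ c₀ : kˣ, LocSol ℓ h S (c₀ : k)
  swap
  · refine ⟨1, one_pos, fun X hX => ?_⟩
    rw [hempty (fun c : kˣ => LocSol ℓ h S (c : k) ∧ HasSec ℓ h (c : k)) X
      fun c h1 => hex ⟨c, h1.1⟩]
    have := hlog X hX
    rw [Nat.cast_zero]
    positivity
  obtain ⟨c₀, hc₀⟩ := hex
  obtain ⟨δ, X₀, hδ, h3⟩ := hlow S hS c₀ hc₀
  have hlX0 : 0 ≤ Real.log ((X₀ : ℕ) : ℝ) := Real.log_natCast_nonneg X₀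
  refine ⟨C / δ + Real.log X₀ ^ η, by positivity, fun X hX => ?_⟩
  have hlX := hlog X hX
  have hlη : 0 < Real.log X ^ η := Real.rpow_pos_of_pos hlX η
  obtain ⟨NL, hNL⟩ : ∃ n : ℝ, n = Nat.card (clsU ℓ (fun c : kˣ => LocSol ℓ h S (c : k)) X) :=
    ⟨_, rfl⟩
  have hNL0 : 0 ≤ NL := by rw [hNL]; exact Nat.cast_nonneg _
  rw [← hNL, le_div_iff₀ hlη, add_mul]
  rcases le_or_gt X₀ X with hXX | hXX
  · have h4 := hup (fun c => LocSol ℓ h S (c : k)) X hX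
    rw [le_div_iff₀ hlη] at h4
    have h5 := h3 X hXX
    rw [← hNL] at h5
    have h6 : C * (X * Real.log X ^ (κ - 1)) ≤ C / δ * NL := by
      calc C * (X * Real.log X ^ (κ - 1)) =
          C / δ * (δ * (X * Real.log X ^ (κ - 1))) := by field_simp
        _ ≤ C / δ * NL := mul_le_mul_of_nonneg_left h5 (by positivity)
    have h7 : 0 ≤ Real.log X₀ ^ η * NL := by positivity
    linarith
  · have h1 : (Nat.card (clsU ℓ (fun c : kˣ => LocSol ℓ h S (c : k) ∧ HasSec ℓ h (c : k)) X) : ℝ) ≤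
        NL := by
      rw [hNL]
      have h2 : clsU ℓ (fun c : kˣ => LocSol ℓ h S (c : k) ∧ HasSec ℓ h (c : k)) X ⊆
          clsU ℓ (fun c : kˣ => LocSol ℓ h S (c : k)) X := by
        rintro _ ⟨c, rfl, h3, h4, -⟩
        exact ⟨c, rfl, h3, h4⟩
      exact_mod_cast Nat.card_mono (clsU_finite hℓ.two_le _ X) h2
    have h3 : Real.log X ^ η ≤ Real.log X₀ ^ η := by
      refine Real.rpow_le_rpow hlX.le ?_ hη.le
      refine Real.log_le_log (by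
        have h1 : (3 : ℝ) ≤ X := by exact_mod_cast hX
        linarith) ?_
      exact_mod_cast hXX.le
    have h4 : (Nat.card (clsU ℓ (fun c : kˣ => LocSol ℓ h S (c : k) ∧ HasSec ℓ h (c : k)) X) : ℝ) *
        Real.log X ^ η ≤ Real.log X₀ ^ η * NL := by
      rw [mul_comm]
      exact mul_le_mul h3 h1 (Nat.cast_nonneg _) (Real.rpow_nonneg hlX0 η)
    have h5 : 0 ≤ C / δ * NL := by positivity
    linarith

end

end Pool.Agent.MLT
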