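import Pool.Agent.Helper13.MLT.Defs
import Pool.Agent.Helper79.ML.G3R
import Pool.Agent.Helper5.TW.G3t

/-!
# Project MLT, block G3T: the weights, with prescribed conditions
-/

set_option autoImplicit false
set_option linter.unusedSectionVars false

namespace Pool.Agent.MLT

open Polynomial NumberField IsDedekindDomain
open Pool.Agent.HG (Pr nm Ctx Gd Over)
open Pool.Agent.HG.Ctx
open Pool.Agent.Helper99.HG (CD pf Nm Bad)
open Pool.Agent.MP (SysR TAR)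
open Pool.Agent.Helper99.ML (BTb WJb TBRb)
open Pool.Agent.ML
open scoped IntermediateField

/-- the weight is at most the one without prescriptions -/
theorem wjbt_le {k : ℕ} {G : Type} (D : CD k G) {b : ℝ} (hb : 0 ≤ b) (J : Finset (Fin k))
    (t : Fin k → D.ι → G) (p : D.P) : WJbt D b J t p ≤ WJb D b J p := by
  classical
  unfold WJbt WJb
  refine Finset.sum_le_sum_of_subset_of_nonneg ?_ fun _ _ _ => by positivity
  intro o ho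
  rw [Finset.mem_filter] at ho ⊢
  exact ⟨ho.1, ho.2.1⟩

/-- the weight is bounded by the number of options -/
theorem wjbt_card {k : ℕ} {G β : Type} (D : CD k G) (b : ℝ) (J : Finset (Fin k))
    (t : Fin k → D.ι → G) (p : D.P) (w : ℝ) (hw : 0 ≤ w) (A : Finset β) (φ : D.O → β)
    (h1 : ∀ o ∈ D.V p, D.cmp o ∈ J → φ o ∈ A ∧ b ^ (∑ j ∈ J, (D.I p o j).card) = w)
    (h2 : ∀ o ∈ D.V p, ∀ o' ∈ D.V p, D.cmp o ∈ J → D.cmp o' ∈ J →
      (∀ j, j ∉ J → ∀ i ∈ D.I p o j, t j i = D.g p o i) →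
      (∀ j, j ∉ J → ∀ i ∈ D.I p o' j, t j i = D.g p o' i) → φ o = φ o' → o = o') :
    WJbt D b J t p ≤ A.card * w := by
  classical
  unfold WJbt
  have h3 : ∀ o ∈ (D.V p).filter
      (fun o => D.cmp o ∈ J ∧ ∀ j, j ∉ J → ∀ i ∈ D.I p o j, t j i = D.g p o i),
      b ^ (∑ j ∈ J, (D.I p o j).card) = w := by
    intro o ho
    rw [Finset.mem_filter] at ho
    exact (h1 o ho.1 ho.2.1).2
  have h4 : ((D.V p).filter
      (fun o => D.cmp o ∈ J ∧ ∀ j, j ∉ J → ∀ i ∈ D.I p o j, t j i = D.g p o i)).card ≤ A.card := by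
    refine Finset.card_le_card_of_injOn φ ?_ ?_
    · intro o ho
      have ho' := Finset.mem_coe.1 ho
      rw [Finset.mem_filter] at ho'
      exact Finset.mem_coe.2 (h1 o ho'.1 ho'.2.1).1
    · intro o ho o' ho' he
      have a := Finset.mem_coe.1 ho
      have a' := Finset.mem_coe.1 ho'
      rw [Finset.mem_filter] at a a'
      exact h2 o a.1 o' a'.1 a.2.1 a'.2.1 a.2.2 a'.2.2 he
  calc _ ≤ ∑ o ∈ (D.V p).filter
        (fun o => D.cmp o ∈ J ∧ ∀ j, j ∉ J → ∀ i ∈ D.I p o j, t j i = D.g p o i), w := by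
        refine le_of_eq (Finset.sum_congr ?_ ?_)
        · ext o
          simp only [Finset.mem_filter]
        · intro o ho
          exact h3 o ho
    _ ≤ A.card * w := by
        rw [Finset.sum_const, nsmul_eq_mul]
        refine mul_le_mul_of_nonneg_right ?_ hw
        exact_mod_cast h4

section wt

variable {k L : Type} [Field k] [NumberField k] [Field L] [NumberField L] [Algebra k L]
  [IsGalois k L] {f : k[X]} (X : Ctx k L f) (n ℓ : ℕ) [NeZero ℓ]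

open scoped Classical in
/-- the exponent of the weight of one option -/
theorem expoT (hℓ : 0 < ℓ) (hm : 0 < X.m) (J : Finset (Fin X.m)) (v : Pr k) {t : L}
    (ht : t ∈ X.FJ5 hm J v) :
      (1 / (ℓ : ℝ)) ^ (∑ j ∈ J, (((X.R v).filter fun ρ => X.cmp hm ρ = j).erase t).card) =
        ℓ * (1 / (ℓ : ℝ)) ^ (X.RJ5 hm J v).card := by
  have hℓ0 : (0 : ℝ) < ℓ := by exact_mod_cast hℓ
  have h3 : t ∈ X.RJ5 hm J v := X.FJ_sub_RJ5 hm J v ht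
  have h4 : ∑ j ∈ J, (((X.R v).filter fun ρ => X.cmp hm ρ = j).erase t).card =
      ((X.RJ5 hm J v).erase t).card := by
    rw [Finset.card_eq_sum_card_fiberwise (f := X.cmp hm) (t := J)]
    · refine Finset.sum_congr rfl fun j hj => ?_
      congr 1
      ext ρ
      rw [Finset.mem_erase, Finset.mem_filter, Finset.mem_filter, Finset.mem_erase, mem_RJ5]
      constructor
      · rintro ⟨a1, a2, a3⟩
        exact ⟨⟨a1, a2, by rw [a3]; exact hj⟩, a3⟩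
      · rintro ⟨⟨a1, a2, _⟩, a3⟩
        exact ⟨a1, a2, a3⟩
    · intro ρ hρ
      have h5 := Finset.mem_of_mem_erase hρ
      exact ((X.mem_RJ5 hm J v ρ).1 h5).2
  have h5 := Finset.card_erase_add_one h3
  rw [h4, ← h5, pow_succ]
  field_simp

/-- an orbit outside `J` with length prime to `ℓ` determines the root of unity -/
theorem wjT_forced (hp : ℓ.Prime) (h2 : 2 ≤ f.natDegree) (hm : 0 < X.m)
    (hfin : {v : Pr k | ¬ Gd X.M v}.Finite) (ι : Type)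
    (Vι : Pr k → L → Finset ι) (Al : Fin n → L → Prop) (w : L → Fin n → ℕ)
    (SG : Pr k → ι → ℕ → L → L → rootsOfUnity ℓ k) (hh : L → L → L)
    (J : Finset (Fin X.m)) (p : Pr k × Fin n) (t : Fin X.m → L → rootsOfUnity ℓ k) {ρ : L}
    (hρ : ρ ∈ X.R p.1) (hρJ : X.cmp hm ρ ∉ J) (hlen : ¬ ℓ ∣ X.len p.1 ρ)
    (c : ℕ) (hc : ∀ t, (Vι p.1 t).card ≤ c) :
    WJbt (cdL X n ℓ hm hfin ι Vι Al w (ggL X ℓ hm w SG hh)) (1 / ℓ) J t p ≤
      c * (ℓ * ((X.FJ5 hm J p.1).card : ℝ) * (1 / (ℓ : ℝ)) ^ (X.RJ5 hm J p.1).card) := by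
  classical
  have hℓ0 : (0 : ℝ) < ℓ := by exact_mod_cast hp.pos
  have key : ∀ o ∈ (cdL X n ℓ hm hfin ι Vι Al w (ggL X ℓ hm w SG hh)).V p,
      (cdL X n ℓ hm hfin ι Vι Al w (ggL X ℓ hm w SG hh)).cmp o ∈ J → o.1.1 ∈ X.FJ5 hm J p.1 ∧
        o.2 ∈ Vι p.1 o.1.1 := by
    intro (o : (Σ _ : L × rootsOfUnity ℓ k, ι)) ho h3
    have ho' : o ∈ (((X.Fx p.1).filter fun θ => Al p.2 θ) ×ˢ
        (Set.toFinite (Set.univ : Set (rootsOfUnity ℓ k))).toFinset).sigma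
          fun o => Vι p.1 o.1 := ho
    rw [Finset.mem_sigma, Finset.mem_product, Finset.mem_filter] at ho'
    obtain ⟨⟨⟨h1, -⟩, -⟩, h2⟩ := ho'
    unfold Ctx.Fx at h1
    rw [Finset.mem_filter] at h1
    exact ⟨(X.mem_FJ5 hm J p.1 _).2 ⟨h1, h3⟩, h2⟩
  have key2 : ∀ o : (Σ _ : L × rootsOfUnity ℓ k, ι), o.1.1 ∈ X.FJ5 hm J p.1 →
      (∀ j, j ∉ J → ∀ i ∈ (cdL X n ℓ hm hfin ι Vι Al w (ggL X ℓ hm w SG hh)).I p o j,
        t j i = (cdL X n ℓ hm hfin ι Vι Al w (ggL X ℓ hm w SG hh)).g p o i) →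
      t (X.cmp hm ρ) ρ = ggL X ℓ hm w SG hh p o ρ := by
    intro o ho h3
    refine h3 _ hρJ ρ ?_
    change ρ ∈ ((X.R p.1).filter fun ρ' => X.cmp hm ρ' = X.cmp hm ρ).erase o.1.1
    rw [Finset.mem_erase, Finset.mem_filter]
    refine ⟨?_, hρ, rfl⟩
    rintro rfl
    exact hρJ ((X.mem_FJ5 hm J p.1 _).1 ho).2
  have h := wjbt_card (cdL X n ℓ hm hfin ι Vι Al w (ggL X ℓ hm w SG hh)) (1 / ℓ) J t p
    (ℓ * (1 / (ℓ : ℝ)) ^ (X.RJ5 hm J p.1).card) (by positivity)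
    ((X.FJ5 hm J p.1).sigma fun t => Vι p.1 t)
    (fun o : (Σ _ : L × rootsOfUnity ℓ k, ι) => (⟨o.1.1, o.2⟩ : Σ _ : L, ι)) ?_ ?_
  · refine h.trans ?_
    have hcard : (((X.FJ5 hm J p.1).sigma fun t => Vι p.1 t).card : ℝ) ≤
        c * (X.FJ5 hm J p.1).card := by
      rw [Finset.card_sigma]
      exact TW.sum_card5 X hm Vι J p.1 c hc
    calc _ ≤ (c * (X.FJ5 hm J p.1).card : ℝ) * (ℓ * (1 / (ℓ : ℝ)) ^ (X.RJ5 hm J p.1).card) :=
          mul_le_mul_of_nonneg_right hcard (by positivity)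
      _ = _ := by ring
  · intro (o : (Σ _ : L × rootsOfUnity ℓ k, ι)) ho h3
    have h5 := key o ho h3
    exact ⟨Finset.mem_sigma.2 h5, expoT X ℓ hp.pos hm J p.1 h5.1⟩
  · intro (o : (Σ _ : L × rootsOfUnity ℓ k, ι)) ho (o' : (Σ _ : L × rootsOfUnity ℓ k, ι)) ho' h3 h3'
      ha ha' he
    obtain ⟨ho1, -⟩ := key o ho h3
    obtain ⟨ho1', -⟩ := key o' ho' h3'
    have ho3 := key2 o ho1 ha
    have ho3' := key2 o' ho1' ha'
    clear ha ha' ho ho' h3 h3' key key2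
    obtain ⟨⟨b, u⟩, i⟩ := o
    obtain ⟨⟨b', u'⟩, i'⟩ := o'
    have e1 : b = b' := congrArg (fun z : (Σ _ : L, ι) => z.1) he
    have e2 : i = i' := congrArg (fun z : (Σ _ : L, ι) => z.2) he
    subst e1 e2
    have hfix : X.F p.1 b = b := ((X.mem_FJ5 hm J p.1 _).1 ho1).1.2
    have hbJ : X.cmp hm b ∈ J := ((X.mem_FJ5 hm J p.1 _).1 ho1).2
    have hne : X.cmp hm b ≠ X.cmp hm ρ := fun h => hρJ (h ▸ hbJ)
    have hρb : ρ ∈ (X.R p.1).erase b := by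
      rw [Finset.mem_erase]
      refine ⟨?_, hρ⟩
      rintro rfl
      exact hne rfl
    have hle : padicValNat ℓ (X.len p.1 (st X ℓ p.1 b)) ≤ padicValNat ℓ (X.len p.1 ρ) := by
      refine st_le X h2 hfix ?_
      convert hρb
    have hq : ¬ ℓ ∣ Nat.lcm (X.len p.1 ρ) (X.len p.1 (st X ℓ p.1 b)) /
        X.len p.1 (st X ℓ p.1 b) := by
      intro h8
      have h9 : Nat.lcm (X.len p.1 ρ) (X.len p.1 (st X ℓ p.1 b)) / X.len p.1 (st X ℓ p.1 b) ∣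
          X.len p.1 ρ := by
        have h5 : Nat.lcm (X.len p.1 ρ) (X.len p.1 (st X ℓ p.1 b)) ∣
            X.len p.1 ρ * X.len p.1 (st X ℓ p.1 b) := Nat.lcm_dvd_mul _ _
        have h6 := Nat.div_dvd_div
          (Nat.dvd_lcm_right (X.len p.1 ρ) (X.len p.1 (st X ℓ p.1 b))) h5
        rwa [Nat.mul_div_cancel _ (X.len_pos p.1 (st X ℓ p.1 b))] at h6
      exact hlen (h8.trans h9)
    have hr : ¬ ℓ ∣ Nat.lcm (X.len p.1 ρ) (X.len p.1 (st X ℓ p.1 b)) / X.len p.1 ρ := by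
      refine not_dvd_quot X hp h2 hfix ?_
      convert hρb
    have e3 := ho3.symm.trans ho3'
    unfold ggL at e3
    dsimp only at e3
    rw [if_neg hne, mul_one, mul_one] at e3
    have e4 : u = u' := by
      split_ifs at e3 with h5
      · exact e3
      · have e5 := congrArg
          (fun z => z ^ (Nat.lcm (X.len p.1 ρ) (X.len p.1 (st X ℓ p.1 b)) / X.len p.1 ρ)) e3
        beta_reduce at e5
        rw [← pow_mul, ← pow_mul, mul_comm _ (Nat.lcm _ _ / X.len p.1 ρ), pow_mul, pow_mul,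
          root_pow_inv hp _ hr, root_pow_inv hp _ hr] at e5
        have e6 := mul_left_cancel (mul_right_cancel e5)
        have e7 := congrArg (fun z => z ^ (((Nat.lcm (X.len p.1 ρ) (X.len p.1 (st X ℓ p.1 b)) /
          X.len p.1 (st X ℓ p.1 b) : ℕ) : ZMod ℓ)⁻¹).val) e6
        beta_reduce at e7
        rwa [root_pow_inv hp _ hq, root_pow_inv hp _ hq] at e7
    rw [e4]

/-- the weight without the prescriptions -/
theorem wjT_free (hℓ : 0 < ℓ) (hm : 0 < X.m) (hfin : {v : Pr k | ¬ Gd X.M v}.Finite) (ι : Type)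
    (Vι : Pr k → L → Finset ι) (Al : Fin n → L → Prop) (w : L → Fin n → ℕ)
    (g : Pr k × Fin n → (Σ _ : L × rootsOfUnity ℓ k, ι) → L → rootsOfUnity ℓ k)
    (J : Finset (Fin X.m)) (p : Pr k × Fin n) (t : Fin X.m → L → rootsOfUnity ℓ k)
    (c : ℕ) (hc : ∀ t, (Vι p.1 t).card ≤ c)
    (h : ℓ ^ 2 * (X.FJ5 hm J p.1).card ≤ ℓ ^ (X.RJ5 hm J p.1).card) :
    WJbt (cdL X n ℓ hm hfin ι Vι Al w g) (1 / ℓ) J t p ≤ c := by
  have hℓ0 : (0 : ℝ) < ℓ := by exact_mod_cast hℓ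
  refine (wjbt_le (cdL X n ℓ hm hfin ι Vι Al w g) (by positivity) J t p).trans
    ((wjL_le X n ℓ hℓ hm hfin ι Vι Al w g J p c hc).trans ?_)
  have h2 : (ℓ : ℝ) ^ 2 * (X.FJ5 hm J p.1).card ≤ ℓ ^ (X.RJ5 hm J p.1).card := by
    exact_mod_cast h
  have h3 : (ℓ : ℝ) ^ 2 * (X.FJ5 hm J p.1).card * (1 / ℓ) ^ (X.RJ5 hm J p.1).card ≤ 1 := by
    rw [one_div, inv_pow, ← div_eq_mul_inv, div_le_one (by positivity)]
    exact h2
  calc (c : ℝ) * ((ℓ : ℝ) ^ 2 * (X.FJ5 hm J p.1).card * (1 / ℓ) ^ (X.RJ5 hm J p.1).card) ≤ c * 1 :=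
        mul_le_mul_of_nonneg_left h3 (Nat.cast_nonneg c)
    _ = c := mul_one _

theorem numA {ℓ f m : ℕ} (hℓ : 2 ≤ ℓ) (h : f + 1 ≤ m) : ℓ ^ 2 * f ≤ ℓ ^ m := by
  have h1 : ℓ ^ (f + 1) ≤ ℓ ^ m := Nat.pow_le_pow_right (by omega) h
  refine le_trans ?_ h1
  rcases f with _ | f
  · simp
  · have h2 : f + 1 ≤ 2 ^ f := Nat.lt_two_pow_self
    have h3 : 2 ^ f ≤ ℓ ^ f := Nat.pow_le_pow_left hℓ f
    calc ℓ ^ 2 * (f + 1) ≤ ℓ ^ 2 * ℓ ^ f := Nat.mul_le_mul_left _ (h2.trans h3)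
      _ = ℓ ^ (f + 1 + 1) := by ring

theorem numB {ℓ j : ℕ} (hℓ : 2 ≤ ℓ) (hj : 3 ≤ j) : ℓ ^ 2 * j ≤ ℓ ^ j ∨ ℓ = 2 ∧ j = 3 := by
  by_cases h5 : 5 ≤ j
  · left
    have := num3 hℓ h5
    rw [mul_comm]
    exact this.le
  · have h4 : j = 3 ∨ j = 4 := by omega
    rcases h4 with rfl | rfl
    · by_cases h3 : 3 ≤ ℓ
      · left
        rw [pow_succ ℓ 2]
        exact Nat.mul_le_mul_left _ h3
      · right
        exact ⟨by omega, rfl⟩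
    · left
      have h6 : 4 ≤ ℓ ^ 2 := by
        calc 4 = 2 ^ 2 := by norm_num
          _ ≤ ℓ ^ 2 := Nat.pow_le_pow_left hℓ 2
      calc ℓ ^ 2 * 4 ≤ ℓ ^ 2 * ℓ ^ 2 := Nat.mul_le_mul_left _ h6
        _ = ℓ ^ 4 := by ring

theorem numC {ℓ j : ℕ} (hℓ : 2 ≤ ℓ) (hj : 3 ≤ j) : j * ℓ + 1 ≤ ℓ ^ j := by
  obtain ⟨i, rfl⟩ : ∃ i, j = i + 3 := ⟨j - 3, by omega⟩
  have h1 : i + 3 < 2 ^ (i + 2) := by
    have : i + 1 ≤ 2 ^ i := Nat.lt_two_pow_self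
    rw [pow_add]
    omega
  have h2 : 2 ^ (i + 2) ≤ ℓ ^ (i + 2) := Nat.pow_le_pow_left hℓ _
  have h3 : ℓ ^ (i + 3) = ℓ ^ (i + 2) * ℓ := by ring
  rw [h3]
  exact Nat.mul_lt_mul_of_pos_right (h1.trans_le h2) (by omega)

/-- if `ℓ` does not divide the number of elements of a stable set `T` of roots outside `J` then some
orbit outside `J` has length prime to `ℓ` (`TW.exists_odd5` is a case) -/
theorem exists_len {ℓ : ℕ} (hp : ℓ.Prime) (hm : 0 < X.m) (J : Finset (Fin X.m)) (v : Pr k)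
    (T : Finset L) (hTm : ∀ θ ∈ T, θ ∈ X.Ω ∧ X.cmp hm θ ∉ J)
    (hst : ∀ σ : L ≃ₐ[k] L, ∀ θ ∈ T, σ θ ∈ T) (h : ¬ ℓ ∣ T.card) :
    ∃ ρ ∈ X.R v, X.cmp hm ρ ∉ J ∧ ¬ ℓ ∣ X.len v ρ := by
  classical
  have : Fact (Nat.Prime ℓ) := ⟨hp⟩
  obtain ⟨s, m, hm2, hsm⟩ := Nat.exists_eq_pow_mul_and_not_dvd (orderOf_pos (X.F v)).ne' ℓ
    hp.one_lt.ne'
  have hiff : ∀ θ : L, (X.F v ^ m) θ ∈ T ↔ θ ∈ T := by
    intro θ
    constructor
    · intro h1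
      have h2 := hst (X.F v ^ m)⁻¹ _ h1
      rwa [← AlgEquiv.mul_apply, inv_mul_cancel] at h2
    · exact hst _ θ
  set τ : Equiv.Perm {θ // θ ∈ T} :=
    Equiv.Perm.subtypePerm ((X.F v ^ m : L ≃ₐ[k] L).toEquiv) (p := fun θ => θ ∈ T) hiff with hτ
  have hτv : ∀ (n : ℕ) (θ : {θ // θ ∈ T}), ((τ ^ n) θ : L) = ((X.F v ^ m) ^ n) θ := by
    intro n
    induction n with
    | zero => intro θ; rfl
    | succ n ih =>
      intro θ
      rw [pow_succ, pow_succ, Equiv.Perm.mul_apply, ih, AlgEquiv.mul_apply]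
      rfl
  have hτ2 : τ ^ ℓ ^ s = 1 := by
    ext θ
    rw [hτv, ← pow_mul, mul_comm, ← hsm, pow_orderOf_eq_one]
    rfl
  have hcT : ¬ ℓ ∣ Fintype.card {θ // θ ∈ T} := by
    rw [Fintype.card_coe]
    exact h
  obtain ⟨⟨θ, hθ⟩, hfix⟩ := Equiv.Perm.exists_fixed_point_of_prime hcT hτ2
  have h1 : (X.F v ^ m) θ = θ := by
    have h2 := hτv 1 ⟨θ, hθ⟩
    rw [pow_one, pow_one, hfix] at h2
    exact h2.symm
  rw [Ctx.pow_apply'] at h1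
  have hper : Function.IsPeriodicPt (X.F v) m θ := h1
  have hm0 : 0 < m := Nat.pos_of_ne_zero fun h0 => hm2 (h0 ▸ dvd_zero ℓ)
  have hdvd : X.len v θ ∣ m := hper.minimalPeriod_dvd
  obtain ⟨i, hi⟩ := X.rep_eq v θ
  have hlen : X.len v (X.rep v θ) = X.len v θ := by
    unfold Ctx.len
    rw [hi]
    exact Function.minimalPeriod_apply_iterate ⟨m, hm0, hper⟩ i
  have hθ' := hTm θ hθ
  refine ⟨X.rep v θ, ?_, ?_, ?_⟩
  · unfold Ctx.R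
    exact Finset.mem_image_of_mem _ hθ'.1
  · rw [X.cmp_rep5]
    exact hθ'.2
  · rw [hlen]
    exact fun h8 => hm2 (h8.trans hdvd)

/-- if the sum of the orders over `J` is not zero then some orbit outside `J` has length prime to
`ℓ` -/
theorem exists_lenM {ℓ : ℕ} (hp : ℓ.Prime) {m : L → ZMod ℓ} (hM : IsOrd f ℓ m) (hm : 0 < X.m)
    (J : Finset (Fin X.m)) (v : Pr k) (h : ∑ θ ∈ X.ΩJ5 hm J, m θ ≠ 0) :
    ∃ ρ ∈ X.R v, X.cmp hm ρ ∉ J ∧ ¬ ℓ ∣ X.len v ρ := by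
  classical
  have : Fact (Nat.Prime ℓ) := ⟨hp⟩
  set T : Finset L := X.Ω \ X.ΩJ5 hm J with hT
  have hTm : ∀ θ : L, θ ∈ T ↔ θ ∈ X.Ω ∧ X.cmp hm θ ∉ J := by
    intro θ
    rw [hT, Finset.mem_sdiff, mem_ΩJ5]
    tauto
  have hsub : X.ΩJ5 hm J ⊆ X.Ω := by
    unfold Ctx.ΩJ5
    exact Finset.filter_subset _ _
  have hst : ∀ σ : L ≃ₐ[k] L, ∀ θ ∈ T, σ θ ∈ T := by
    intro σ θ hθ
    rw [hTm] at hθ ⊢
    refine ⟨X.conj_mem hθ.1 σ, ?_⟩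
    rw [X.cmp_congr5 hm (minpoly.algEquiv_eq σ θ)]
    exact hθ.2
  have h0 : ∑ θ ∈ X.Ω, m θ = 0 := by
    rw [← hM.sum]
    refine Finset.sum_congr ?_ fun _ _ => rfl
    ext θ
    rw [Ctx.mem_Ω, Set.Finite.mem_toFinset]
  have h1 : ∑ θ ∈ T, m θ ≠ 0 := by
    intro h1
    rw [← Finset.sum_sdiff hsub, ← hT, h1, zero_add] at h0
    exact h h0
  obtain ⟨c, hc⟩ : ∃ c : ZMod ℓ, ¬ ℓ ∣ (T.filter fun θ => m θ = c).card := by
    by_contra hcon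
    push Not at hcon
    refine h1 ?_
    rw [← Finset.sum_fiberwise T m m]
    refine Finset.sum_eq_zero fun c _ => ?_
    rw [Finset.sum_congr rfl (g := fun _ => c) fun θ hθ => (Finset.mem_filter.1 hθ).2,
      Finset.sum_const, nsmul_eq_mul, (ZMod.natCast_eq_zero_iff _ _).2 (hcon c), zero_mul]
  refine exists_len X hp hm J v _ (fun θ hθ => (hTm θ).1 (Finset.mem_filter.1 hθ).1) ?_ hc
  intro σ θ hθ
  rw [Finset.mem_filter] at hθ ⊢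
  refine ⟨hst σ θ hθ.1, ?_⟩
  rw [hM.inv σ θ ((X.mem_Ω θ).1 ((hTm θ).1 hθ.1).1)]
  exact hθ.2

/-- `J` has at least three roots, or two such that the sum of the orders is not zero -/
def BigJ (ℓ : ℕ) (m : L → ZMod ℓ) (hm : 0 < X.m) (J : Finset (Fin X.m)) : Prop :=
  3 ≤ (X.ΩJ5 hm J).card ∨ (X.ΩJ5 hm J).card = 2 ∧ ∑ θ ∈ X.ΩJ5 hm J, m θ ≠ 0

/-- for `ℓ = 2` the sum of the orders is the number of the roots -/
theorem sum_two {m : L → ZMod 2} (hM : IsOrd f 2 m) (hm : 0 < X.m) (J : Finset (Fin X.m)) :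
    ∑ θ ∈ X.ΩJ5 hm J, m θ = ((X.ΩJ5 hm J).card : ZMod 2) := by
  rw [Finset.sum_congr rfl (g := fun _ => (1 : ZMod 2)) ?_, Finset.sum_const, nsmul_eq_mul, mul_one]
  intro θ hθ
  have h1 : θ ∈ X.Ω := ((X.mem_ΩJ5 hm J θ).1 hθ).1
  have h2 := hM.ne θ ((X.mem_Ω θ).1 h1)
  revert h2
  generalize m θ = a
  revert a
  decide

/-- the weight is at most `c` if `J` is large -/
theorem wjT_le_one (hp : ℓ.Prime) (h2 : 2 ≤ f.natDegree) {m : L → ZMod ℓ} (hM : IsOrd f ℓ m)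
    (hm : 0 < X.m)
    (hfin : {v : Pr k | ¬ Gd X.M v}.Finite) (ι : Type)
    (Vι : Pr k → L → Finset ι) (Al : Fin n → L → Prop) (w : L → Fin n → ℕ)
    (SG : Pr k → ι → ℕ → L → L → rootsOfUnity ℓ k) (hh : L → L → L)
    (J : Finset (Fin X.m)) (hJ : BigJ X ℓ m hm J) (p : Pr k × Fin n)
    (t : Fin X.m → L → rootsOfUnity ℓ k) (c : ℕ) (hc : ∀ t, (Vι p.1 t).card ≤ c) :
    WJbt (cdL X n ℓ hm hfin ι Vι Al w (ggL X ℓ hm w SG hh)) (1 / ℓ) J t p ≤ c := by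
  classical
  have hℓ := hp.two_le
  have hℓ0 : (0 : ℝ) < ℓ := by exact_mod_cast hp.pos
  have hℓ1 : (1 / (ℓ : ℝ)) ≤ 1 := by
    rw [div_le_one hℓ0]
    exact_mod_cast (by omega : 1 ≤ ℓ)
  have hsub : X.ΩJ5 hm J ⊆ X.Ω := by
    unfold Ctx.ΩJ5
    exact Finset.filter_subset _ _
  -- the forced case
  have hforced : (∑ θ ∈ X.ΩJ5 hm J, m θ ≠ 0) →
      (X.FJ5 hm J p.1).card ≤ (X.ΩJ5 hm J).card →
      ((X.ΩJ5 hm J).card : ℝ) * ℓ ≤ (ℓ : ℝ) ^ (X.ΩJ5 hm J).card →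
      (X.ΩJ5 hm J).card ≤ (X.RJ5 hm J p.1).card →
      WJbt (cdL X n ℓ hm hfin ι Vι Al w (ggL X ℓ hm w SG hh)) (1 / ℓ) J t p ≤ c := by
    intro hnd hF hnum hR
    obtain ⟨ρ, hρ, hρJ, hlen⟩ := exists_lenM X hp hM hm J p.1 hnd
    refine (wjT_forced X n ℓ hp h2 hm hfin ι Vι Al w SG hh J p t hρ hρJ hlen c hc).trans ?_
    have h7 : (1 / (ℓ : ℝ)) ^ (X.RJ5 hm J p.1).card ≤ (1 / (ℓ : ℝ)) ^ (X.ΩJ5 hm J).card :=
      pow_le_pow_of_le_one (by positivity) hℓ1 hR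
    have h8 : (ℓ : ℝ) ^ (X.ΩJ5 hm J).card * (1 / ℓ) ^ (X.ΩJ5 hm J).card = 1 := by
      rw [← mul_pow, mul_one_div_cancel hℓ0.ne', one_pow]
    have h9 : ((X.FJ5 hm J p.1).card : ℝ) ≤ (X.ΩJ5 hm J).card := by exact_mod_cast hF
    have h10 : (ℓ : ℝ) * ((X.FJ5 hm J p.1).card : ℝ) * (1 / (ℓ : ℝ)) ^ (X.RJ5 hm J p.1).card ≤ 1 := by
      calc (ℓ : ℝ) * ((X.FJ5 hm J p.1).card : ℝ) * (1 / (ℓ : ℝ)) ^ (X.RJ5 hm J p.1).card
          ≤ (ℓ : ℝ) * (X.ΩJ5 hm J).card * (1 / (ℓ : ℝ)) ^ (X.ΩJ5 hm J).card := by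
            refine mul_le_mul (mul_le_mul_of_nonneg_left h9 hℓ0.le) h7 (by positivity)
              (by positivity)
        _ ≤ (ℓ : ℝ) ^ (X.ΩJ5 hm J).card * (1 / (ℓ : ℝ)) ^ (X.ΩJ5 hm J).card := by
            refine mul_le_mul_of_nonneg_right ?_ (by positivity)
            linarith
        _ = 1 := h8
    calc (c : ℝ) * ((ℓ : ℝ) * ((X.FJ5 hm J p.1).card : ℝ) *
        (1 / (ℓ : ℝ)) ^ (X.RJ5 hm J p.1).card) ≤ c * 1 :=
          mul_le_mul_of_nonneg_left h10 (Nat.cast_nonneg c)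
      _ = c := mul_one _
  rcases lt_or_ge (X.FJ5 hm J p.1).card (X.ΩJ5 hm J).card with h | h
  · exact wjT_free X n ℓ hp.pos hm hfin ι Vι Al w _ J p t c hc
      (numA hℓ (X.card_RJ5 hm J p.1 h))
  · have hF : (X.FJ5 hm J p.1).card = (X.ΩJ5 hm J).card :=
      le_antisymm (Finset.card_le_card (X.FJ_sub_ΩJ5 hm J p.1)) h
    have hR : (X.ΩJ5 hm J).card ≤ (X.RJ5 hm J p.1).card := by
      rw [← hF]
      exact Finset.card_le_card (X.FJ_sub_RJ5 hm J p.1)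
    rcases hJ with hJ | ⟨hJ, hnd⟩
    · rcases numB hℓ hJ with h3 | ⟨h3, h4⟩
      · refine wjT_free X n ℓ hp.pos hm hfin ι Vι Al w _ J p t c hc ?_
        rw [hF]
        exact h3.trans (Nat.pow_le_pow_right hp.pos hR)
      · refine hforced ?_ hF.le ?_ hR
        · subst h3
          rw [sum_two X hM, h4]
          decide
        · rw [h3, h4]
          norm_num
    · refine hforced hnd hF.le ?_ hR
      rw [hJ]
      have h3 : (2 : ℝ) ≤ ℓ := by exact_mod_cast hℓ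
      push_cast
      nlinarith

/-- the weight at the split primes -/
theorem wjT_split (hp : ℓ.Prime) (h2 : 2 ≤ f.natDegree) {m : L → ZMod ℓ} (hM : IsOrd f ℓ m)
    (hbig : X.Ω.card * ℓ ^ 2 < ℓ ^ X.Ω.card) (hm : 0 < X.m)
    (hfin : {v : Pr k | ¬ Gd X.M v}.Finite) (ι : Type)
    (Vι : Pr k → L → Finset ι) (Al : Fin n → L → Prop) (w : L → Fin n → ℕ)
    (SG : Pr k → ι → ℕ → L → L → rootsOfUnity ℓ k) (hh : L → L → L)
    (J : Finset (Fin X.m)) (hJ : BigJ X ℓ m hm J) (p : Pr k × Fin n)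
    (t : Fin X.m → L → rootsOfUnity ℓ k) (hc : ∀ t, (Vι p.1 t).card ≤ 1)
    (h : ∀ θ ∈ X.Ω, X.F p.1 θ = θ) :
    WJbt (cdL X n ℓ hm hfin ι Vι Al w (ggL X ℓ hm w SG hh)) (1 / ℓ) J t p ≤
      1 - (1 / ℓ) ^ X.Ω.card := by
  classical
  have hℓ := hp.two_le
  have hℓ0 : (0 : ℝ) < ℓ := by exact_mod_cast hp.pos
  have hℓ1 : (1 / (ℓ : ℝ)) ≤ 1 := by
    rw [div_le_one hℓ0]
    exact_mod_cast (by omega : 1 ≤ ℓ)
  have hsub : X.ΩJ5 hm J ⊆ X.Ω := by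
    unfold Ctx.ΩJ5
    exact Finset.filter_subset _ _
  have hFJ : X.FJ5 hm J p.1 = X.ΩJ5 hm J := by
    ext ρ
    rw [Ctx.mem_FJ5, Ctx.mem_ΩJ5]
    exact ⟨fun a => ⟨a.1.1, a.2⟩, fun a => ⟨⟨a.1, h ρ a.1⟩, a.2⟩⟩
  by_cases hall : X.Ω ⊆ X.ΩJ5 hm J
  · have heq : X.ΩJ5 hm J = X.Ω := Finset.Subset.antisymm hsub hall
    refine (wjbt_le (cdL X n ℓ hm hfin ι Vι Al w (ggL X ℓ hm w SG hh)) (by positivity) J t p).trans
      (wjL_split X n ℓ hℓ hm hfin ι Vι Al w (ggL X ℓ hm w SG hh) J ?_ p hc h)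
    rw [heq]
    exact hbig
  · obtain ⟨ρ, hρ, hρ'⟩ := Finset.not_subset.1 hall
    have hρJ : X.cmp hm ρ ∉ J := fun h3 => hρ' ((X.mem_ΩJ5 hm J ρ).2 ⟨hρ, h3⟩)
    have hlen : ¬ ℓ ∣ X.len p.1 ρ := by
      have h3 : X.len p.1 ρ = 1 := by
        unfold Ctx.len
        exact Function.minimalPeriod_eq_one_iff_isFixedPt.2 (h ρ hρ)
      rw [h3]
      exact hp.one_lt.ne' ∘ Nat.dvd_one.1
    refine (wjT_forced X n ℓ hp h2 hm hfin ι Vι Al w SG hh J p t (X.fix_mem_R5 hρ (h ρ hρ)) hρJ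
      hlen 1 hc).trans ?_
    have h1 := Finset.card_le_card (X.FJ_sub_RJ5 hm J p.1)
    rw [hFJ] at h1 ⊢
    rw [Nat.cast_one, one_mul]
    have hnum : (X.ΩJ5 hm J).card * ℓ + 1 ≤ ℓ ^ (X.ΩJ5 hm J).card := by
      rcases hJ with hJ | ⟨hJ, hnd⟩
      · exact numC hℓ hJ
      · have h3 : ℓ ≠ 2 := by
          rintro rfl
          refine hnd ?_
          rw [sum_two X hM, hJ]
          decide
        rw [hJ]
        nlinarith [(by omega : 3 ≤ ℓ)]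
    set j := (X.ΩJ5 hm J).card
    have h4 : (1 / (ℓ : ℝ)) ^ (X.RJ5 hm J p.1).card ≤ (1 / (ℓ : ℝ)) ^ j :=
      pow_le_pow_of_le_one (by positivity) hℓ1 h1
    have h5 : (1 / (ℓ : ℝ)) ^ X.Ω.card ≤ (1 / (ℓ : ℝ)) ^ j :=
      pow_le_pow_of_le_one (by positivity) hℓ1 (Finset.card_le_card hsub)
    have h6 : (ℓ : ℝ) * j ≤ ℓ ^ j - 1 := by
      have h7 : ((j * ℓ + 1 : ℕ) : ℝ) ≤ ((ℓ ^ j : ℕ) : ℝ) := by exact_mod_cast hnum
      push_cast at h7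
      linarith
    have h8 : (ℓ : ℝ) ^ j * (1 / ℓ) ^ j = 1 := by
      rw [← mul_pow, mul_one_div_cancel hℓ0.ne', one_pow]
    calc (ℓ : ℝ) * j * (1 / (ℓ : ℝ)) ^ (X.RJ5 hm J p.1).card
        ≤ (ℓ : ℝ) * j * (1 / (ℓ : ℝ)) ^ j := mul_le_mul_of_nonneg_left h4 (by positivity)
      _ ≤ (ℓ ^ j - 1) * (1 / (ℓ : ℝ)) ^ j := mul_le_mul_of_nonneg_right h6 (by positivity)
      _ = 1 - (1 / (ℓ : ℝ)) ^ j := by rw [sub_mul, h8, one_mul]
      _ ≤ _ := by linarith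

open scoped Classical in
/-- many roots: the weights are less than `κ` in the mean -/
theorem tbrT (hpr : ℓ.Prime) (hdeg : 2 ≤ f.natDegree) {m : L → ZMod ℓ} (hM : IsOrd f ℓ m)
    (hbig : X.Ω.card * ℓ ^ 2 < ℓ ^ X.Ω.card) (K : ℕ) {δs Cs : ℝ} {Qs : Set (Pr k)} (hδs : 0 < δs)
    (hQs : ∀ v ∈ Qs, ∀ P : Pr L, P.asIdeal.comap (algebraMap (𝓞 k) (𝓞 L)) = v.asIdeal →
        ∀ z : 𝓞 L, z ^ nm v - z ∈ P.asIdeal)
    {B₀ : ℕ → Finset (Pr k)} (hB₀ : ∀ x v, v ∈ B₀ x ↔ nm v ≤ x)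
    (hCs : ∀ x : ℕ, 2 ≤ x →
      |∑ v ∈ (B₀ x).filter (· ∈ Qs), (1 : ℝ) / nm v - δs * Real.log (Real.log x)| ≤ Cs)
    {R₀ : Set (Pr k)} {κ C₂ : ℝ} (h2 : ∀ x : ℕ, 2 ≤ x →
      |∑ v ∈ (B₀ x).filter (· ∈ R₀), (1 : ℝ) / nm v - κ * Real.log (Real.log x)| ≤ C₂)
    (E : Finset (Fin n)) (hE : E.Nonempty)
    (hm : 0 < X.m) (hfin : {v : Pr k | ¬ Gd X.M v}.Finite) (ι : Type)
    (Vι : Pr k → L → Finset ι) (Al : Fin n → L → Prop) (w : L → Fin n → ℕ)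
    (SG : Pr k → ι → ℕ → L → L → rootsOfUnity ℓ k) (hh : L → L → L)
    (hK : ∀ v t, (Vι v t).card ≤ K) (Q : Set (Pr k))
    (hQ : ∀ v ∉ Q, Gd X.M v → ∀ t, (Vι v t).card ≤ 1)
    {B : ℕ → Finset (Pr k)} (hB : ∀ x v, v ∈ B x ↔ nm v ≤ x) {δ C : ℝ}
    (hδ : δ ≤ (1 / (ℓ : ℝ)) ^ X.Ω.card / 2 * δs / (K + (1 / (ℓ : ℝ)) ^ X.Ω.card))
    (hC : ∀ x : ℕ, 2 ≤ x →
      |∑ v ∈ (B x).filter (· ∈ Q), (1 : ℝ) / nm v - δ * Real.log (Real.log x)| ≤ C)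
    (J : Finset (Fin X.m)) (hJ : BigJ X ℓ m hm J)
    (hR : ∀ v, Gd X.M v → (∀ θ ∈ X.Ω, X.F v θ = θ) → v ∈ R₀) :
    TBRbt (cdL X n ℓ hm hfin ι Vι Al w (ggL X ℓ hm w SG hh)) (1 / ℓ)
      {p : Pr k × Fin n | p.2 ∈ E ∧ p.1 ∈ R₀} (E.card * κ) J := by
  have hℓ := hpr.two_le
  have hℓ0 : (0 : ℝ) < ℓ := by exact_mod_cast (by omega : 0 < ℓ)
  set a : ℝ := (1 / (ℓ : ℝ)) ^ X.Ω.card with ha
  have ha0 : 0 < a := by positivity
  have ha1 : a ≤ 1 := pow_le_one₀ (by positivity) (by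
    rw [div_le_one hℓ0]
    exact_mod_cast (by omega : 1 ≤ ℓ))
  have hKpos : (0 : ℝ) < K + a := by positivity
  have hEc : (0 : ℝ) < E.card := by exact_mod_cast hE.card_pos
  obtain ⟨θ₀, hθ₀⟩ : (X.ΩJ5 hm J).Nonempty := Finset.card_pos.1 (by
    rcases hJ with h | ⟨h, -⟩ <;> omega)
  rw [Ctx.mem_ΩJ5] at hθ₀
  refine ⟨⟨_, hθ₀.2⟩, E.card * (a / 2 * δs), E.card * (2 * C₂ + a * (2 * Cs + ∑ v ∈ hfin.toFinset, (1 : ℝ) / nm v) +
    (K + a) * (2 * C)), by positivity, fun y x hy hyx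
    (t : Pr k × Fin n → Fin X.m → L → rootsOfUnity ℓ k) (S : Finset (Pr k × Fin n)) hS => ?_⟩
  have hS' : ∀ p : Pr k × Fin n, p ∈ S ↔ (p.2 ∈ E ∧ p.1 ∈ R₀) ∧
      p ∉ hfin.toFinset ×ˢ (Finset.univ : Finset (Fin n)) ∧ y < nm p.1 ∧ nm p.1 ≤ x := hS
  set SV : Finset (Pr k) := S.image Prod.fst with hSV
  have hSV' : ∀ v, v ∈ SV ↔ v ∈ R₀ ∧ v ∉ hfin.toFinset ∧ y < nm v ∧ nm v ≤ x := by
    intro v
    rw [hSV, Finset.mem_image]
    constructor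
    · rintro ⟨p, hp, rfl⟩
      have h1 := (hS' p).1 hp
      exact ⟨h1.1.2, fun h => h1.2.1 (Finset.mem_product.2 ⟨h, Finset.mem_univ _⟩), h1.2.2⟩
    · rintro ⟨h1, h2, h3⟩
      obtain ⟨e, he⟩ := hE
      exact ⟨(v, e), (hS' (v, e)).2 ⟨⟨he, h1⟩, fun h => h2 (Finset.mem_product.1 h).1, h3⟩, rfl⟩
  have hLL : Real.log (Real.log y) ≤ Real.log (Real.log x) :=
    Real.log_le_log (Real.log_pos (by exact_mod_cast (by omega : 1 < y)))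
      (Real.log_le_log (by exact_mod_cast (by omega : 0 < y)) (by exact_mod_cast hyx))
  have hgd : ∀ v, v ∉ hfin.toFinset → Gd X.M v := by
    intro v hv
    by_contra h8
    exact hv (hfin.mem_toFinset.2 h8)
  have hfix : ∀ v ∈ Qs, Gd X.M v → ∀ θ ∈ X.Ω, X.F v θ = θ := fun v hv hg θ hθ =>
    X.fix_split5 hg (hQs v hv (X.P v) (X.comap v)) hθ
  have e1 := HG.upperQ5 hB₀ R₀ (by convert h2) hy hyx SV
    fun v hv => ⟨((hSV' v).1 hv).1, ((hSV' v).1 hv).2.2⟩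
  have e2 := HG.diff5 hB₀ Qs (by convert hCs) hfin.toFinset hy hyx (SV.filter (· ∈ Qs))
    fun v hvQ h1 h2 h3 => by
      rw [Finset.mem_filter, hSV']
      exact ⟨⟨hR v (hgd v h3) (hfix v hvQ (hgd v h3)), h3, h1, h2⟩, hvQ⟩
  have e2' := HG.upperQ5 hB Q (by convert hC) hy hyx (SV.filter (· ∈ Q))
    fun v hv => by
      rw [Finset.mem_filter, hSV'] at hv
      exact ⟨hv.2, hv.1.2.2⟩
  -- the bound for the weights
  let bd : Pr k → ℝ := fun v => 1 - a * (if v ∈ Qs then (1 : ℝ) else 0) + (K + a) * (if v ∈ Q then (1 : ℝ) else 0)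
  have hbd0 : ∀ v, 0 ≤ bd v := by
    intro v
    simp only [bd]
    split_ifs <;> nlinarith
  have key : ∀ p ∈ S, WJbt (cdL X n ℓ hm hfin ι Vι Al w (ggL X ℓ hm w SG hh)) (1 / ℓ) J (t p) p ≤ bd p.1 := by
    intro p hp
    have hg : Gd X.M p.1 := hgd p.1 fun h => ((hS' p).1 hp).2.1 (Finset.mem_product.2 ⟨h, Finset.mem_univ _⟩)
    simp only [bd]
    by_cases hvQ : p.1 ∈ Q
    · have h6 := wjT_le_one X n ℓ hpr hdeg hM hm hfin ι Vι Al w SG hh J hJ p (t p) K (hK p.1)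
      rw [if_pos hvQ]
      split_ifs <;> nlinarith
    · rw [if_neg hvQ, mul_zero, add_zero]
      split_ifs with h
      · have := wjT_split X n ℓ hpr hdeg hM hbig hm hfin ι Vι Al w SG hh J hJ p (t p) (hQ p.1 hvQ hg)
          (hfix p.1 h hg)
        linarith
      · have := wjT_le_one X n ℓ hpr hdeg hM hm hfin ι Vι Al w SG hh J hJ p (t p) 1
          (hQ p.1 hvQ hg)
        rw [Nat.cast_one] at this
        linarith
  have e3 : ∑ p ∈ S, WJbt (cdL X n ℓ hm hfin ι Vι Al w (ggL X ℓ hm w SG hh)) (1 / ℓ) J (t p) p / nm p.1 ≤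
      E.card * ∑ v ∈ SV, bd v / nm v := by
    refine sum_lab_le E S (fun p hp => ((hS' p).1 hp).1.1) (fun v => bd v / nm v)
      (fun v => div_nonneg (hbd0 v) (Nat.cast_nonneg _)) _ fun p hp => ?_
    exact div_le_div_of_nonneg_right (key p hp) (Nat.cast_nonneg _)
  have e4 : ∑ v ∈ SV, bd v / nm v =
      ∑ v ∈ SV, (1 : ℝ) / nm v - a * ∑ v ∈ SV.filter (· ∈ Qs), (1 : ℝ) / nm v +
        (K + a) * ∑ v ∈ SV.filter (· ∈ Q), (1 : ℝ) / nm v := by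
    rw [Finset.sum_filter, Finset.sum_filter, Finset.mul_sum, Finset.mul_sum, ← Finset.sum_sub_distrib,
      ← Finset.sum_add_distrib]
    refine Finset.sum_congr rfl fun v _ => ?_
    simp only [bd]
    split_ifs <;> ring
  have e5 : (K + a : ℝ) * (δ * (Real.log (Real.log x) - Real.log (Real.log y))) ≤
      a / 2 * δs * (Real.log (Real.log x) - Real.log (Real.log y)) := by
    rw [← mul_assoc]
    refine mul_le_mul_of_nonneg_right ?_ (by linarith)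
    rw [le_div_iff₀ hKpos] at hδ
    linarith
  have e6 : (K + a : ℝ) * ∑ v ∈ SV.filter (· ∈ Q), (1 : ℝ) / nm v ≤
      (K + a) * (δ * (Real.log (Real.log x) - Real.log (Real.log y)) + 2 * C) :=
    mul_le_mul_of_nonneg_left e2' hKpos.le
  have e7 : a * (δs * (Real.log (Real.log x) - Real.log (Real.log y)) -
      (2 * Cs + ∑ v ∈ hfin.toFinset, (1 : ℝ) / nm v)) ≤ a * ∑ v ∈ SV.filter (· ∈ Qs), (1 : ℝ) / nm v :=
    mul_le_mul_of_nonneg_left e2 ha0.le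
  have e8 : ∑ v ∈ SV, bd v / nm v ≤ (κ - a / 2 * δs) * (Real.log (Real.log x) - Real.log (Real.log y)) +
      (2 * C₂ + a * (2 * Cs + ∑ v ∈ hfin.toFinset, (1 : ℝ) / nm v) + (K + a) * (2 * C)) := by
    rw [e4]
    rw [mul_add] at e6
    nlinarith
  change ∑ p ∈ S, WJbt (cdL X n ℓ hm hfin ι Vι Al w (ggL X ℓ hm w SG hh)) (1 / ℓ) J (t p) p / nm p.1 ≤ _
  refine e3.trans ((mul_le_mul_of_nonneg_left e8 hEc.le).trans (le_of_eq ?_))
  ring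

end wt

end Pool.Agent.MLT
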